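import Pool.Agent.Lib.MP_3cbb73_an.Upper.Potential

set_option autoImplicit false

namespace Pool.Agent.Lib.MP_3cbb73_an.Upper

open Real Set

/-- `(1+β)^((1-β)/β) ≤ (1+β)/(2β)` for `0 < β ≤ 1/2`. -/
lemma pow_aux {β : ℝ} (hβ : 0 < β) (hβ2 : β ≤ 1 / 2) :
    (1 + β) ^ ((1 - β) / β) ≤ (1 + β) / (2 * β) := by
  have h1 : 0 < 1 - β := by linarith
  have hp0 : 0 < β / (1 - β) := by positivity
  have hp1 : β / (1 - β) ≤ 1 := by rw [div_le_one h1]; linarith
  have hb := rpow_one_add_le_one_add_mul_self (s := 2 * β / (1 + β) - 1)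
    (by have : 0 ≤ 2 * β / (1 + β) := by positivity
        linarith) hp0.le hp1
  rw [show 1 + (2 * β / (1 + β) - 1) = 2 * β / (1 + β) by ring] at hb
  have e1 : 1 + β / (1 - β) * (2 * β / (1 + β) - 1) = (1 + β)⁻¹ := by
    field_simp
    ring
  rw [e1] at hb
  have h2 : (((2 * β / (1 + β)) ^ (β / (1 - β))) ^ ((1 - β) / β)) ≤
      ((1 + β)⁻¹) ^ ((1 - β) / β) :=
    Real.rpow_le_rpow (by positivity) hb (by positivity)
  rw [← Real.rpow_mul (by positivity), show β / (1 - β) * ((1 - β) / β) = 1 by field_simp,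
    Real.rpow_one, Real.inv_rpow (by positivity)] at h2
  have h3 : 0 < (1 + β) ^ ((1 - β) / β) := Real.rpow_pos_of_pos (by positivity) _
  rw [le_inv_comm₀ (by positivity) h3] at h2
  refine h2.trans (le_of_eq ?_)
  rw [inv_div]

namespace Par

variable (P : Par)

/-- The profile on `[0, V]` is bounded below by a parabola, from the tangent at `a`. -/
lemma w_lower_of_tangent {a c : ℝ} (ha : 0 < a) (h1 : P.C * (1 - P.β) * a ^ P.β ≤ P.A)
    (h2 : P.C * P.β * a ^ (P.β - 1) - P.B ≤ c) {v : ℝ} (hv : 0 ≤ v) (hvV : v ≤ P.V) :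
    -(c * v ^ 2) ≤ P.w v := by
  rw [P.w_of_le hvV]
  unfold w1
  rcases hv.eq_or_lt with h | h
  · rw [← h, Real.zero_rpow (by have := P.hβ; positivity)]
    simp
  · have h3 : v ^ (1 + P.β) = v * v ^ P.β := by rw [Real.rpow_add h, Real.rpow_one]
    rw [h3]
    have h4 := rpow_le_tangent P.hβ.le P.hβ1.le hv ha
    have h5 : a ^ P.β = a * a ^ (P.β - 1) := by
      rw [Real.rpow_sub ha, Real.rpow_one]
      field_simp
    have h6 : v ^ P.β ≤ (1 - P.β) * a ^ P.β + P.β * a ^ (P.β - 1) * v := by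
      refine h4.trans (le_of_eq ?_)
      rw [h5]
      ring
    have hC := P.Cpos
    have h7 := mul_le_mul_of_nonneg_left h6 hC.le
    have h8 : 0 ≤ P.A + P.B * v - P.C * v ^ P.β + c * v := by
      have h9 : (P.C * P.β * a ^ (P.β - 1)) * v ≤ (c + P.B) * v :=
        mul_le_mul_of_nonneg_right (by linarith) hv
      nlinarith
    nlinarith [mul_nonneg hv h8]

lemma w_lower_tail {c : ℝ} (hc : 1 / (4 * P.K) ≤ c) {v : ℝ} (hvV : P.V ≤ v) :
    -(c * v ^ 2) ≤ P.w v := by
  rw [P.w_of_ge hvV]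
  have hK := P.Kpos
  have h1 : 1 / (4 * P.K) * v ^ 2 ≤ c * v ^ 2 := mul_le_mul_of_nonneg_right hc (sq_nonneg _)
  have h2 : 0 ≤ 1 / (4 * P.K) * (v - 2 * P.K) ^ 2 := by positivity
  have h3 : 1 / (4 * P.K) * (v - 2 * P.K) ^ 2 = 1 / (4 * P.K) * v ^ 2 - v + P.K := by
    field_simp
    ring
  linarith

/-- The threshold for the squared lower Riesz constant. -/
noncomputable def T : ℝ := P.mu / (P.lam - 1 + P.β)

lemma four_K_lt (h : 1 - P.β < P.lam) : 1 / (4 * P.K) < P.T := by
  have hmu := P.hmu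
  have hV := P.Vpos
  have hβ := P.hβ
  have hd : 0 < P.lam - 1 + P.β := by linarith
  unfold T K
  have hlm := P.hlm
  rw [div_lt_div_iff₀ (by positivity) hd]
  have e : P.mu * (4 * (P.mu * P.V ^ 2 / (1 + P.β))) = (2 * P.mu * P.V) ^ 2 / (1 + P.β) := by ring
  rw [e, ← hlm, lt_div_iff₀ (by positivity)]
  nlinarith [sq_nonneg (P.lam + P.β - (1 + P.β) / 2), P.hβ1]

/-- Coercivity of the profile. -/
lemma coercive (h : 1 - P.β < P.lam) (h' : P.lam < 2) (hβ2 : P.β ≤ 1 / 2) :
    ∃ c : ℝ, 0 ≤ c ∧ c < P.T ∧ ∀ v, 0 ≤ v → -(c * v ^ 2) ≤ P.w v := by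
  have hmu := P.hmu
  have hV := P.Vpos
  have hβ := P.hβ
  have hK := P.Kpos
  have h1β := P.h1β
  have h1β2 := P.h1β2
  have hd : 0 < P.lam - 1 + P.β := by linarith
  have hlam : 0 < P.lam := by linarith
  have hlm := P.hlm
  have hKT := P.four_K_lt h
  have main : ∀ c1 : ℝ, c1 < P.T → (∀ v, 0 ≤ v → v ≤ P.V → -(c1 * v ^ 2) ≤ P.w v) →
      ∃ c : ℝ, 0 ≤ c ∧ c < P.T ∧ ∀ v, 0 ≤ v → -(c * v ^ 2) ≤ P.w v := by
    intro c1 hc1 hw
    refine ⟨max c1 (1 / (4 * P.K)), le_max_of_le_right (by positivity), max_lt hc1 hKT,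
      fun v hv => ?_⟩
    rcases le_total v P.V with h | h
    · refine le_trans ?_ (hw v hv h)
      have := mul_le_mul_of_nonneg_right (le_max_left c1 (1 / (4 * P.K))) (sq_nonneg v)
      linarith
    · exact P.w_lower_tail (le_max_right _ _) h
  rcases le_total 1 P.lam with hl | hl
  · -- tangent at `V`
    refine main (P.mu / (1 + P.β)) ?_ (fun v hv hvV => ?_)
    · unfold T
      exact div_lt_div_of_pos_left hmu hd (by linarith)
    · refine P.w_lower_of_tangent hV ?_ ?_ hv hvV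
      · have e : P.C * (1 - P.β) * P.V ^ P.β = (1 - P.β) * (P.C * P.V ^ P.β) := by ring
        rw [e, P.C_Vβ, ← hlm]
        unfold A
        rw [show 1 - P.β ^ 2 = (1 - P.β) * (1 + P.β) by ring]
        have e2 : (1 - P.β) * ((P.lam + P.β) / (P.β * ((1 - P.β) * (1 + P.β)))) =
            (P.lam + P.β) / (P.β * (1 + P.β)) := by
          field_simp
        rw [e2, div_le_div_iff₀ (by positivity) hβ]
        nlinarith [mul_pos hβ hβ, mul_nonneg (mul_pos hβ hβ).le (sub_nonneg.2 hl)]
      · have e : P.C * P.β * P.V ^ (P.β - 1) = P.β * (P.C * P.V ^ (P.β - 1)) := by ring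
        rw [e, P.C_Vβ1]
        unfold B
        apply le_of_eq
        rw [show 1 - P.β ^ 2 = (1 - P.β) * (1 + P.β) by ring]
        field_simp
        ring
  · rcases hl.eq_or_lt with hl | hl
    · -- `lam = 1`
      refine main (P.mu / (1 + P.β)) ?_ (fun v hv hvV => ?_)
      · unfold T
        exact div_lt_div_of_pos_left hmu hd (by linarith)
      · refine P.w_lower_of_tangent hV ?_ ?_ hv hvV
        · have e : P.C * (1 - P.β) * P.V ^ P.β = (1 - P.β) * (P.C * P.V ^ P.β) := by ring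
          rw [e, P.C_Vβ, ← hlm]
          unfold A
          rw [show 1 - P.β ^ 2 = (1 - P.β) * (1 + P.β) by ring]
          have e2 : (1 - P.β) * ((P.lam + P.β) / (P.β * ((1 - P.β) * (1 + P.β)))) =
              (P.lam + P.β) / (P.β * (1 + P.β)) := by
            field_simp
          rw [e2, div_le_div_iff₀ (by positivity) hβ, hl]
          nlinarith
        · have e : P.C * P.β * P.V ^ (P.β - 1) = P.β * (P.C * P.V ^ (P.β - 1)) := by ring
          rw [e, P.C_Vβ1]
          unfold B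
          apply le_of_eq
          rw [show 1 - P.β ^ 2 = (1 - P.β) * (1 + P.β) by ring]
          field_simp
          ring
    · -- tangent at a smaller point
      set X : ℝ := (P.lam + P.β) / (P.lam * (1 + P.β)) with hX
      have hX0 : 0 < X := by positivity
      have hX1 : X ≤ 1 + P.β := by
        rw [hX, div_le_iff₀ (by positivity)]
        nlinarith [mul_pos hβ hlam, mul_pos (mul_pos hβ hβ) hlam]
      set a : ℝ := P.V * X ^ (-(1 / P.β)) with ha
      have ha0 : 0 < a := mul_pos hV (Real.rpow_pos_of_pos hX0 _)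
      have haβ : a ^ P.β = P.V ^ P.β * X⁻¹ := by
        rw [ha, Real.mul_rpow hV.le (Real.rpow_pos_of_pos hX0 _).le, ← Real.rpow_mul hX0.le,
          show -(1 / P.β) * P.β = -1 by field_simp, Real.rpow_neg_one]
      have haβ1 : a ^ (P.β - 1) = P.V ^ (P.β - 1) * X ^ ((1 - P.β) / P.β) := by
        rw [ha, Real.mul_rpow hV.le (Real.rpow_pos_of_pos hX0 _).le, ← Real.rpow_mul hX0.le]
        congr 2
        field_simp
        ring
      have hY : X ^ ((1 - P.β) / P.β) ≤ (1 + P.β) / (2 * P.β) :=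
        (Real.rpow_le_rpow hX0.le hX1 (by positivity)).trans (pow_aux hβ hβ2)
      refine main (P.mu / P.β) ?_ (fun v hv hvV => ?_)
      · unfold T
        exact div_lt_div_of_pos_left hmu hd (by linarith)
      · refine P.w_lower_of_tangent ha0 ?_ ?_ hv hvV
        · have e : P.C * (1 - P.β) * a ^ P.β = (1 - P.β) * (P.C * P.V ^ P.β) * X⁻¹ := by
            rw [haβ]; ring
          rw [e, P.C_Vβ, ← hlm, hX]
          unfold A
          rw [show 1 - P.β ^ 2 = (1 - P.β) * (1 + P.β) by ring]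
          apply le_of_eq
          field_simp
        · have e : P.C * P.β * a ^ (P.β - 1) =
              P.β * (P.C * P.V ^ (P.β - 1)) * X ^ ((1 - P.β) / P.β) := by
            rw [haβ1]; ring
          rw [e, P.C_Vβ1]
          unfold B
          have h5 : P.β * (2 * P.mu / (P.β * (1 - P.β ^ 2))) * X ^ ((1 - P.β) / P.β) ≤
              P.β * (2 * P.mu / (P.β * (1 - P.β ^ 2))) * ((1 + P.β) / (2 * P.β)) :=
            mul_le_mul_of_nonneg_left hY (by positivity)
          have h6 : P.β * (2 * P.mu / (P.β * (1 - P.β ^ 2))) * ((1 + P.β) / (2 * P.β)) =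
              P.mu / (P.β * (1 - P.β)) := by
            rw [show 1 - P.β ^ 2 = (1 - P.β) * (1 + P.β) by ring]
            field_simp
          have h7 : P.mu / (P.β * (1 - P.β)) - P.mu / (1 - P.β) = P.mu / P.β := by
            field_simp
          linarith

/-- The scale function is monotone: first the linear part. -/
lemma scale_aux {x : ℝ} {D' D : ℝ} (hD' : 0 < D') (hDD : D' ≤ D) :
    P.K * D' ^ (1 + P.β) - x * D' ^ P.β - P.A * x * D' ^ P.β - P.B * x ^ 2 * D' ^ (P.β - 1) ≤
      P.K * D ^ (1 + P.β) - x * D ^ P.β - P.A * x * D ^ P.β - P.B * x ^ 2 * D ^ (P.β - 1) := by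
  have hV := P.Vpos
  have hβ := P.hβ
  have hder : ∀ s : ℝ, 0 < s → HasDerivAt (fun D : ℝ => P.K * D ^ (1 + P.β) - x * D ^ P.β -
      P.A * x * D ^ P.β - P.B * x ^ 2 * D ^ (P.β - 1))
      (P.mu * s ^ (P.β - 2) * (P.V * s - x) ^ 2) s := by
    intro s hs
    have h1 := (Real.hasDerivAt_rpow_const (x := s) (p := 1 + P.β) (Or.inl hs.ne')).const_mul P.K
    have h2 := (Real.hasDerivAt_rpow_const (x := s) (p := P.β) (Or.inl hs.ne')).const_mul x
    have h3 := (Real.hasDerivAt_rpow_const (x := s) (p := P.β) (Or.inl hs.ne')).const_mul (P.A * x)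
    have h4 := (Real.hasDerivAt_rpow_const (x := s) (p := P.β - 1)
      (Or.inl hs.ne')).const_mul (P.B * x ^ 2)
    refine (((h1.sub h2).sub h3).sub h4).congr_deriv ?_
    have e1 : s ^ (1 + P.β - 1) = s ^ 2 * s ^ (P.β - 2) := by
      rw [← Real.rpow_natCast s 2, ← Real.rpow_add hs]
      congr 1
      push_cast
      ring
    have e2 : s ^ (P.β - 1) = s * s ^ (P.β - 2) := by
      nth_rewrite 2 [← Real.rpow_one s]
      rw [← Real.rpow_add hs]
      congr 1
      ring
    have e3 : s ^ (P.β - 1 - 1) = s ^ (P.β - 2) := by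
      congr 1
      ring
    rw [e1, e2, e3]
    unfold K A B
    have h1β := P.h1β.ne'
    have hl : P.lam = 2 * P.mu * P.V - P.β := by linarith [P.hlm]
    rw [hl]
    field_simp
    ring
  have hmono : MonotoneOn (fun D : ℝ => P.K * D ^ (1 + P.β) - x * D ^ P.β -
      P.A * x * D ^ P.β - P.B * x ^ 2 * D ^ (P.β - 1)) (Ioi 0) := by
    apply monotoneOn_of_deriv_nonneg (convex_Ioi 0)
    · intro s hs
      exact (hder s hs).continuousAt.continuousWithinAt
    · intro s hs
      rw [interior_Ioi] at hs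
      exact (hder s hs).differentiableAt.differentiableWithinAt
    · intro s hs
      rw [interior_Ioi] at hs
      rw [(hder s hs).deriv]
      have := P.hmu
      have h3 : 0 < s ^ (P.β - 2) := Real.rpow_pos_of_pos hs _
      positivity
  exact hmono hD' (lt_of_lt_of_le hD' hDD) hDD

/-- change of scale, one coefficient -/
lemma scale {x D' D : ℝ} (hx : 0 ≤ x) (hD' : 0 < D') (hDD : D' ≤ D) :
    P.A * x * (D ^ P.β - D' ^ P.β) + P.B * x ^ 2 * (D ^ (P.β - 1) - D' ^ (P.β - 1)) ≤
      D ^ (1 + P.β) * P.w (x / D) - D' ^ (1 + P.β) * P.w (x / D') := by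
  have hD : 0 < D := lt_of_lt_of_le hD' hDD
  have hV := P.Vpos
  rcases hx.eq_or_lt with hx0 | hx0
  · rw [← hx0]
    simp [P.w_zero]
  have small : ∀ s : ℝ, 0 < s → x / P.V ≤ s → s ^ (1 + P.β) * P.w (x / s) =
      P.A * x * s ^ P.β + P.B * x ^ 2 * s ^ (P.β - 1) - P.C * x ^ (1 + P.β) := by
    intro s hs hsx
    have h1 : x / s ≤ P.V := by
      rw [div_le_iff₀ hs]
      rw [div_le_iff₀ hV] at hsx
      linarith
    rw [P.w_of_le h1]
    unfold w1
    rw [Real.div_rpow hx hs.le]
    have h2 : s ^ (1 + P.β) = s * s ^ P.β := by rw [Real.rpow_add hs, Real.rpow_one]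
    have h3 : s ^ (P.β - 1) = s ^ P.β / s := by rw [Real.rpow_sub hs, Real.rpow_one]
    have h4 : 0 < s ^ P.β := Real.rpow_pos_of_pos hs _
    rw [h2, h3]
    field_simp
  have large : ∀ s : ℝ, 0 < s → s ≤ x / P.V → s ^ (1 + P.β) * P.w (x / s) =
      P.K * s ^ (1 + P.β) - x * s ^ P.β := by
    intro s hs hsx
    have h1 : P.V ≤ x / s := by
      rw [le_div_iff₀ hs]
      rw [le_div_iff₀ hV] at hsx
      linarith
    rw [P.w_of_ge h1]
    have h2 : s ^ (1 + P.β) = s * s ^ P.β := by rw [Real.rpow_add hs, Real.rpow_one]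
    rw [h2]
    field_simp
  rcases le_total (x / P.V) D' with h | h
  · rw [small D hD (h.trans hDD), small D' hD' h]
    apply le_of_eq
    ring
  · rcases le_total (x / P.V) D with h2 | h2
    · have hm : 0 < x / P.V := by positivity
      have e1 := small (x / P.V) hm le_rfl
      have e2 := large (x / P.V) hm le_rfl
      have h3 := P.scale_aux (x := x) hD' h
      rw [small D hD h2, large D' hD' h]
      linarith
    · have h3 := P.scale_aux (x := x) hD' hDD
      rw [large D hD h2, large D' hD' h]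
      linarith

end Par

/-- weighted arithmetic-geometric inequality used for the change of scale -/
lemma scale_ineq {β D' D : ℝ} (hβ : 0 < β) (hβ1 : β < 1) (hD' : 0 < D') (hDD : D' ≤ D) :
    β * (D' ^ (β - 1) - D ^ (β - 1)) * D' ≤ (1 - β) * (D ^ β - D' ^ β) := by
  have hD : 0 < D := lt_of_lt_of_le hD' hDD
  have h1 := Real.geom_mean_le_arith_mean2_weighted (w₁ := 1 - β) (w₂ := β)
    (p₁ := (D / D') ^ β) (p₂ := (D / D') ^ (β - 1)) (by linarith) hβ.le
    (by positivity) (by positivity) (by ring)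
  rw [← Real.rpow_mul (by positivity), ← Real.rpow_mul (by positivity),
    ← Real.rpow_add (by positivity), show β * (1 - β) + (β - 1) * β = 0 by ring,
    Real.rpow_zero, Real.div_rpow hD.le hD'.le, Real.div_rpow hD.le hD'.le] at h1
  have h2 : D' ^ (β - 1) = D' ^ β / D' := by rw [Real.rpow_sub hD', Real.rpow_one]
  have h3 : 0 < D' ^ β := Real.rpow_pos_of_pos hD' _
  rw [h2] at h1 ⊢
  have h4 : D' ^ β ≤ (1 - β) * D ^ β + β * (D ^ (β - 1) * D') := by
    have h5 := mul_le_mul_of_nonneg_right h1 h3.le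
    rw [one_mul] at h5
    refine h5.trans (le_of_eq ?_)
    field_simp
  have h6 : β * (D' ^ β / D' - D ^ (β - 1)) * D' = β * D' ^ β - β * (D ^ (β - 1) * D') := by
    field_simp
  rw [h6]
  linarith

end Pool.Agent.Lib.MP_3cbb73_an.Upper
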