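import Pool.Agent.Lib.MP_3cbb73_an.Greedy
import Pool.Agent.Lib.MP_3cbb73_an.Upper.Coercive

set_option autoImplicit false

/-! Energy estimates with the power weight. -/

namespace Pool.Agent.Lib.MP_3cbb73_an.Upper

open Real Filter Topology
open scoped RealInnerProductSpace

open Pool.Agent.Lib.MP_3cbb73_an (Riesz hasSum_energy)

variable {H : Type*} [NormedAddCommGroup H] [InnerProductSpace ℝ H] {ι : Type*}
variable {g : ι → H} {p q : ℝ}

/-- The potential. -/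
noncomputable def Gam (P : Par) (D : ℝ) (x : ι → ℝ) (f : H) : ℝ :=
  D ^ (P.β - 1) * ‖f‖ ^ 2 + ∑' i, D ^ (1 + P.β) * P.w (|x i| / D)

lemma abs_w_le (P : Par) {v : ℝ} (hv : 0 ≤ v) : |P.w v| ≤ (|P.A| + 1) * v := by
  have h1 := P.w_le hv
  have h2 := P.w_ge_neg hv
  have h3 : P.A * v ≤ |P.A| * v := mul_le_mul_of_nonneg_right (le_abs_self _) hv
  have h4 : 0 ≤ |P.A| * v := by positivity
  rw [abs_le]
  constructor <;> nlinarith

lemma pow_split (P : Par) {D : ℝ} (hD : 0 < D) : D ^ (1 + P.β) = D * D ^ P.β := by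
  rw [Real.rpow_add hD, Real.rpow_one]

lemma pow_split' (P : Par) {D : ℝ} (hD : 0 < D) : D ^ (P.β - 1) = D ^ P.β / D := by
  rw [Real.rpow_sub hD, Real.rpow_one]

lemma summable_w (P : Par) {D : ℝ} (hD : 0 < D) {x : ι → ℝ} (hx : Summable (fun i => |x i|)) :
    Summable (fun i => D ^ (1 + P.β) * P.w (|x i| / D)) := by
  refine Summable.of_norm_bounded (hx.mul_left (D ^ P.β * (|P.A| + 1))) ?_
  intro i
  have h0 : 0 < D ^ (1 + P.β) := Real.rpow_pos_of_pos hD _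
  rw [Real.norm_eq_abs, abs_mul, abs_of_pos h0]
  have := abs_w_le P (v := |x i| / D) (by positivity)
  calc D ^ (1 + P.β) * |P.w (|x i| / D)|
      ≤ D ^ (1 + P.β) * ((|P.A| + 1) * (|x i| / D)) := by gcongr
    _ = D ^ P.β * (|P.A| + 1) * |x i| := by
      rw [pow_split P hD]
      field_simp

/-- lower bound of the potential -/
lemma le_Gam (hg : Riesz g p q) (hp : 0 < p) (P : Par) {c : ℝ} (hc : 0 ≤ c)
    (hw : ∀ v, 0 ≤ v → -(c * v ^ 2) ≤ P.w v) {D : ℝ} (hD : 0 < D) {x : ι → ℝ}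
    {f : H} (hx1 : Summable (fun i => |x i|)) (hx : HasSum (fun i => x i • g i) f) :
    (1 - c / p) * (D ^ (P.β - 1) * ‖f‖ ^ 2) ≤ Gam P D x f := by
  have hDβ : 0 < D ^ P.β := Real.rpow_pos_of_pos hD _
  have h0 : 0 < D ^ (1 + P.β) := Real.rpow_pos_of_pos hD _
  have h1 : ∑' i, (-(c * D ^ (P.β - 1)) * x i ^ 2) ≤ ∑' i, D ^ (1 + P.β) * P.w (|x i| / D) := by
    apply Summable.tsum_le_tsum _ ((hg.summable_sq hp hx).mul_left _) (summable_w P hD hx1)
    intro i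
    have := hw (|x i| / D) (by positivity)
    have h2 := mul_le_mul_of_nonneg_left this h0.le
    refine le_trans (le_of_eq ?_) h2
    rw [div_pow, sq_abs, pow_split P hD, pow_split' P hD]
    field_simp
  rw [tsum_mul_left] at h1
  have h2 := hg.tsum_sq_le hp hx
  unfold Gam
  have h3 : (c * D ^ (P.β - 1)) * ∑' i, x i ^ 2 ≤ c / p * (D ^ (P.β - 1) * ‖f‖ ^ 2) := by
    have : ∑' i, x i ^ 2 ≤ ‖f‖ ^ 2 / p := by
      rw [le_div_iff₀ hp]; linarith
    have h4 : 0 < D ^ (P.β - 1) := Real.rpow_pos_of_pos hD _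
    calc (c * D ^ (P.β - 1)) * ∑' i, x i ^ 2 ≤ (c * D ^ (P.β - 1)) * (‖f‖ ^ 2 / p) := by gcongr
      _ = c / p * (D ^ (P.β - 1) * ‖f‖ ^ 2) := by field_simp
  linarith

/-- change of scale -/
lemma Gam_scale (hg : Riesz g p q) (hp : 0 < p) (P : Par)
    (hpar : 1 - P.β + P.mu / p ≤ P.lam) {D D' : ℝ} (hD' : 0 < D') (hDD : D' ≤ D)
    {x : ι → ℝ} {f : H} (hx1 : Summable (fun i => |x i|)) (hx : HasSum (fun i => x i • g i) f)
    (hr : ∀ i, |⟪f, g i⟫| ≤ D') :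
    Gam P D' x f ≤ Gam P D x f := by
  have hD : 0 < D := lt_of_lt_of_le hD' hDD
  have hβ := P.hβ
  have hβ1 := P.hβ1
  have h1β := P.h1β
  have hmu := P.hmu
  have hB := P.Bpos
  have hlam : 0 < P.lam := by
    have : 0 < P.mu / p := by positivity
    linarith
  have hA : 0 < P.A := div_pos hlam hβ
  have hE := hasSum_energy hx
  set S1 : ℝ := ∑' i, |x i| with hS1
  set S2 : ℝ := ∑' i, x i ^ 2 with hS2
  set δ : ℝ := D' ^ (P.β - 1) - D ^ (P.β - 1) with hδ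
  set ε : ℝ := D ^ P.β - D' ^ P.β with hε
  have hδ0 : 0 ≤ δ := by
    have := Real.rpow_le_rpow_of_nonpos hD' hDD (by linarith : P.β - 1 ≤ 0)
    linarith
  have hε0 : 0 ≤ ε := by
    have := Real.rpow_le_rpow hD'.le hDD hβ.le
    linarith
  have hsq := hg.summable_sq hp hx
  have hsum1 : Summable (fun i => P.A * |x i| * ε - P.B * x i ^ 2 * δ) :=
    ((hx1.mul_left P.A).mul_right ε).sub ((hsq.mul_left P.B).mul_right δ)
  have h1 : ∑' i, (P.A * |x i| * ε - P.B * x i ^ 2 * δ)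
      ≤ ∑' i, (D ^ (1 + P.β) * P.w (|x i| / D) - D' ^ (1 + P.β) * P.w (|x i| / D')) := by
    apply Summable.tsum_le_tsum _ hsum1 ((summable_w P hD hx1).sub (summable_w P hD' hx1))
    intro i
    have := P.scale (abs_nonneg (x i)) hD' hDD
    rw [sq_abs] at this
    refine le_trans (le_of_eq ?_) this
    rw [hδ, hε]
    ring
  rw [Summable.tsum_sub (summable_w P hD hx1) (summable_w P hD' hx1),
    Summable.tsum_sub ((hx1.mul_left P.A).mul_right ε) ((hsq.mul_left P.B).mul_right δ),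
    tsum_mul_right, tsum_mul_right, tsum_mul_left, tsum_mul_left, ← hS1, ← hS2] at h1
  -- energy bounds
  have hE1 : ‖f‖ ^ 2 ≤ D' * S1 := by
    rw [← hE.tsum_eq, hS1, ← tsum_mul_left]
    apply Summable.tsum_le_tsum _ hE.summable (hx1.mul_left D')
    intro i
    calc x i * ⟪f, g i⟫ ≤ |x i * ⟪f, g i⟫| := le_abs_self _
      _ = |x i| * |⟪f, g i⟫| := abs_mul _ _
      _ ≤ |x i| * D' := by gcongr; exact hr i
      _ = D' * |x i| := mul_comm _ _
  have hE2 : S2 ≤ ‖f‖ ^ 2 / p := by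
    rw [le_div_iff₀ hp]
    have := hg.tsum_sq_le hp hx
    linarith
  have hE0 : 0 ≤ ‖f‖ ^ 2 := sq_nonneg _
  -- the key inequality
  have hscale := scale_ineq hβ hβ1 hD' hDD
  have hk1 : P.lam / (1 - P.β) * ‖f‖ ^ 2 * δ ≤ P.A * S1 * ε := by
    have e1 : ‖f‖ ^ 2 * (P.β * δ) ≤ S1 * ((1 - P.β) * ε) := by
      have hS10 : 0 ≤ S1 := tsum_nonneg (fun i => abs_nonneg _)
      calc ‖f‖ ^ 2 * (P.β * δ) ≤ (D' * S1) * (P.β * δ) := by
            apply mul_le_mul_of_nonneg_right hE1 (by positivity)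
        _ = S1 * (P.β * δ * D') := by ring
        _ ≤ S1 * ((1 - P.β) * ε) := by
            apply mul_le_mul_of_nonneg_left _ hS10
            exact hscale
    have e2 : P.lam / (1 - P.β) * ‖f‖ ^ 2 * δ =
        P.lam / (P.β * (1 - P.β)) * (‖f‖ ^ 2 * (P.β * δ)) := by
      field_simp
    have e3 : P.A * S1 * ε = P.lam / (P.β * (1 - P.β)) * (S1 * ((1 - P.β) * ε)) := by
      unfold Par.A
      field_simp
    rw [e2, e3]
    apply mul_le_mul_of_nonneg_left e1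
    positivity
  have hk2 : ‖f‖ ^ 2 * δ + P.B * S2 * δ ≤ P.lam / (1 - P.β) * ‖f‖ ^ 2 * δ := by
    have e1 : P.B * S2 ≤ P.B * (‖f‖ ^ 2 / p) := mul_le_mul_of_nonneg_left hE2 hB.le
    have e2 : ‖f‖ ^ 2 + P.B * (‖f‖ ^ 2 / p) ≤ P.lam / (1 - P.β) * ‖f‖ ^ 2 := by
      have e3 : ‖f‖ ^ 2 + P.B * (‖f‖ ^ 2 / p) =
          (1 - P.β + P.mu / p) / (1 - P.β) * ‖f‖ ^ 2 := by
        unfold Par.B
        field_simp
      rw [e3]
      apply mul_le_mul_of_nonneg_right _ hE0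
      apply div_le_div_of_nonneg_right hpar h1β.le
    calc ‖f‖ ^ 2 * δ + P.B * S2 * δ = (‖f‖ ^ 2 + P.B * S2) * δ := by ring
      _ ≤ (P.lam / (1 - P.β) * ‖f‖ ^ 2) * δ := by
          apply mul_le_mul_of_nonneg_right _ hδ0
          linarith
  unfold Gam
  have h6 : D' ^ (P.β - 1) * ‖f‖ ^ 2 - D ^ (P.β - 1) * ‖f‖ ^ 2 = ‖f‖ ^ 2 * δ := by
    rw [hδ]; ring
  linarith

/-- one greedy step -/
lemma Gam_step (hn : ∀ i, ‖g i‖ = 1) (P : Par) [DecidableEq ι] {D : ℝ} (hD : 0 < D)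
    {x : ι → ℝ} {f : H} (hx1 : Summable (fun i => |x i|)) (i : ι)
    (hi : D ≤ |⟪f, g i⟫|) :
    Gam P D (Function.update x i (x i - ⟪f, g i⟫)) (f - ⟪f, g i⟫ • g i) ≤ Gam P D x f := by
  set r := ⟪f, g i⟫ with hr
  have h0 : 0 < D ^ (1 + P.β) := Real.rpow_pos_of_pos hD _
  have hnorm : ‖f - r • g i‖ ^ 2 = ‖f‖ ^ 2 - r ^ 2 := by
    rw [norm_sub_sq_real, real_inner_smul_right, ← hr, norm_smul, hn i, Real.norm_eq_abs, mul_one,
      sq_abs]
    ring
  have hupd : (fun j => D ^ (1 + P.β) * P.w (|Function.update x i (x i - r) j| / D))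
      = Function.update (fun j => D ^ (1 + P.β) * P.w (|x j| / D)) i
        (D ^ (1 + P.β) * P.w (|x i - r| / D)) := by
    funext j
    by_cases h : j = i
    · subst h; simp
    · simp [Function.update_of_ne h]
  have hs := ((summable_w P hD hx1).hasSum.update i (D ^ (1 + P.β) * P.w (|x i - r| / D))).tsum_eq
  unfold Gam
  rw [hnorm, hupd, hs]
  have hstep := P.w_step (v := x i / D) (t := r / D) (by
    rw [abs_div, abs_of_pos hD, le_div_iff₀ hD]; linarith)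
  have e1 : |x i / D - r / D| = |x i - r| / D := by
    rw [← sub_div, abs_div, abs_of_pos hD]
  have e2 : |x i / D| = |x i| / D := by rw [abs_div, abs_of_pos hD]
  rw [e1, e2] at hstep
  have h2 := mul_le_mul_of_nonneg_left hstep h0.le
  have e3 : D ^ (1 + P.β) * (r / D) ^ 2 = D ^ (P.β - 1) * r ^ 2 := by
    rw [pow_split P hD, pow_split' P hD]
    field_simp
  rw [e3] at h2
  have e4 : D ^ (P.β - 1) * (‖f‖ ^ 2 - r ^ 2) =
      D ^ (P.β - 1) * ‖f‖ ^ 2 - D ^ (P.β - 1) * r ^ 2 := by ring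
  rw [e4]
  linarith

/-- the initial value -/
lemma Gam_init (P : Par) {D : ℝ} (hD : 0 < D) (hD1 : D ≤ 1)
    {x : ι → ℝ} {f : H} (hx1 : Summable (fun i => |x i|)) (hxs : ∑' i, |x i| ≤ 1)
    (hx : HasSum (fun i => x i • g i) f)
    (hr : ∀ i, |⟪f, g i⟫| ≤ D) :
    Gam P D x f ≤ 1 + |P.A| := by
  have hE := hasSum_energy hx
  have hDβ : 0 < D ^ P.β := Real.rpow_pos_of_pos hD _
  have hDβ1 : D ^ P.β ≤ 1 := Real.rpow_le_one hD.le hD1 P.hβ.le
  have h0 : 0 < D ^ (1 + P.β) := Real.rpow_pos_of_pos hD _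
  have hS0 : 0 ≤ ∑' i, |x i| := tsum_nonneg (fun i => abs_nonneg _)
  have h1 : ‖f‖ ^ 2 ≤ D * ∑' i, |x i| := by
    rw [← hE.tsum_eq, ← tsum_mul_left]
    apply Summable.tsum_le_tsum _ hE.summable (hx1.mul_left D)
    intro i
    calc x i * ⟪f, g i⟫ ≤ |x i * ⟪f, g i⟫| := le_abs_self _
      _ = |x i| * |⟪f, g i⟫| := abs_mul _ _
      _ ≤ |x i| * D := by gcongr; exact hr i
      _ = D * |x i| := mul_comm _ _
  have h2 : ∑' i, D ^ (1 + P.β) * P.w (|x i| / D) ≤ ∑' i, D ^ P.β * |P.A| * |x i| := by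
    apply Summable.tsum_le_tsum _ (summable_w P hD hx1) (hx1.mul_left _)
    intro i
    have := P.w_le (v := |x i| / D) (by positivity)
    have h3 := mul_le_mul_of_nonneg_left this h0.le
    refine h3.trans ?_
    rw [pow_split P hD]
    have e : D * D ^ P.β * (P.A * (|x i| / D)) = D ^ P.β * |x i| * P.A := by field_simp
    rw [e]
    have := mul_le_mul_of_nonneg_left (le_abs_self P.A)
      (by positivity : 0 ≤ D ^ P.β * |x i|)
    linarith
  have e : ∑' i, D ^ P.β * |P.A| * |x i| = D ^ P.β * |P.A| * ∑' i, |x i| := tsum_mul_left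
  rw [e] at h2
  unfold Gam
  have h3 : D ^ (P.β - 1) * ‖f‖ ^ 2 ≤ D ^ P.β * ∑' i, |x i| := by
    have h4 : 0 < D ^ (P.β - 1) := Real.rpow_pos_of_pos hD _
    calc D ^ (P.β - 1) * ‖f‖ ^ 2 ≤ D ^ (P.β - 1) * (D * ∑' i, |x i|) :=
          mul_le_mul_of_nonneg_left h1 h4.le
      _ = D ^ P.β * ∑' i, |x i| := by
        rw [pow_split' P hD]
        field_simp
  have h5 : D ^ P.β * ∑' i, |x i| ≤ 1 := by
    calc D ^ P.β * ∑' i, |x i| ≤ 1 * 1 := mul_le_mul hDβ1 hxs hS0 zero_le_one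
      _ = 1 := one_mul 1
  have h6 : D ^ P.β * |P.A| * ∑' i, |x i| ≤ |P.A| := by
    calc D ^ P.β * |P.A| * ∑' i, |x i| = |P.A| * (D ^ P.β * ∑' i, |x i|) := by ring
      _ ≤ |P.A| * 1 := mul_le_mul_of_nonneg_left h5 (abs_nonneg _)
      _ = |P.A| := mul_one _
  linarith

end Pool.Agent.Lib.MP_3cbb73_an.Upper
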