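import Pool.Agent.Lib.MP_3cbb73_an.Rate
import Pool.Agent.Lib.MP_3cbb73_an.Upper.Greedy

set_option autoImplicit false

/-! The rate of convergence. -/

namespace Pool.Agent.Lib.MP_3cbb73_an.Upper

open Real Filter Topology
open scoped RealInnerProductSpace

open Pool.Agent.Lib.MP_3cbb73_an (Riesz hasSum_energy seq_bound)

/-- A recursive inequality with a power. -/
lemma seq_pow {a : ℕ → ℝ} {C s : ℝ} (hC : 1 ≤ C) (hs : 1 ≤ s) (ha : ∀ k, 0 ≤ a k)
    (h0 : a 0 ≤ 1) (h : ∀ k, a (k + 1) ≤ a k - (a k / C) ^ (1 + s)) (k : ℕ) :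
    a k ≤ C ^ 2 * ((k : ℝ) + 1) ^ (-(1 / s)) := by
  have hC0 : 0 < C := by linarith
  have hs0 : 0 < s := by linarith
  set b : ℕ → ℝ := fun k => a k / C with hb
  have hb0 : ∀ k, 0 ≤ b k := fun k => div_nonneg (ha k) hC0.le
  have hpow0 : ∀ k, 0 ≤ (b k) ^ (1 + s) := fun k => Real.rpow_nonneg (hb0 k) _
  have hb1 : ∀ k, b k ≤ 1 := by
    intro k
    have : a k ≤ 1 := by
      induction k with
      | zero => exact h0
      | succ k ih => have := h k; have := hpow0 k; simp only [hb] at this; linarith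
    rw [hb]
    simp only
    rw [div_le_one hC0]
    linarith
  set z : ℕ → ℝ := fun k => (b k) ^ s / C with hz
  have hz0 : ∀ k, 0 ≤ z k := fun k => div_nonneg (Real.rpow_nonneg (hb0 k) _) hC0.le
  have hz1 : ∀ k, z k ≤ 1 := by
    intro k
    rw [hz]
    simp only
    rw [div_le_one hC0]
    exact (Real.rpow_le_one (hb0 k) (hb1 k) hs0.le).trans hC
  have hrec : ∀ k, b (k + 1) ≤ b k * (1 - z k) := by
    intro k
    have h1 := h k
    have h2 : b (k + 1) ≤ b k - b k ^ (1 + s) / C := by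
      simp only [hb] at h1 ⊢
      rw [← sub_div]
      exact div_le_div_of_nonneg_right h1 hC0.le
    refine h2.trans (le_of_eq ?_)
    have h3 : b k ^ (1 + s) = b k * b k ^ s := by
      rw [Real.rpow_add_of_nonneg (hb0 k) zero_le_one hs0.le, Real.rpow_one]
    rw [h3, hz]
    simp only
    ring
  have hzrec : ∀ k, z (k + 1) ≤ z k - z k ^ 2 / 1 := by
    intro k
    have h1z : 0 ≤ 1 - z k := by have := hz1 k; linarith
    have h2 : b (k + 1) ^ s ≤ (b k * (1 - z k)) ^ s :=
      Real.rpow_le_rpow (hb0 _) (hrec k) hs0.le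
    rw [Real.mul_rpow (hb0 k) h1z] at h2
    have h3 : (1 - z k) ^ s ≤ 1 - z k := by
      have := Real.rpow_le_rpow_of_exponent_ge' h1z (by have := hz0 k; linarith)
        zero_le_one hs
      rwa [Real.rpow_one] at this
    have h4 : b (k + 1) ^ s ≤ b k ^ s * (1 - z k) :=
      h2.trans (mul_le_mul_of_nonneg_left h3 (Real.rpow_nonneg (hb0 k) _))
    have h5 : z (k + 1) ≤ z k * (1 - z k) := by
      have h6 := div_le_div_of_nonneg_right h4 hC0.le
      refine h6.trans (le_of_eq ?_)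
      simp only [hz]
      ring
    refine h5.trans (le_of_eq ?_)
    ring
  have hzb := seq_bound (a := z) (M := 1) one_pos (hz1 0) hzrec k
  have hk0 : (0 : ℝ) < (k : ℝ) + 1 := by positivity
  -- conclude
  have h1 : b k ^ s ≤ C / (k + 1) := by
    have : z k * C ≤ 1 / (k + 1) * C := mul_le_mul_of_nonneg_right hzb hC0.le
    rw [hz] at this
    simp only at this
    rw [div_mul_cancel₀ _ hC0.ne'] at this
    refine this.trans (le_of_eq ?_)
    ring
  have h2 : b k ≤ (C / (k + 1)) ^ (1 / s) := by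
    have h3 := Real.rpow_le_rpow (Real.rpow_nonneg (hb0 k) _) h1 (by positivity : 0 ≤ 1 / s)
    rwa [← Real.rpow_mul (hb0 k), mul_one_div_cancel hs0.ne', Real.rpow_one] at h3
  have h3 : (C / ((k : ℝ) + 1)) ^ (1 / s) ≤ C * ((k : ℝ) + 1) ^ (-(1 / s)) := by
    rw [Real.div_rpow hC0.le hk0.le, Real.rpow_neg hk0.le, div_eq_mul_inv]
    apply mul_le_mul_of_nonneg_right _ (by positivity)
    have : C ^ (1 / s) ≤ C ^ (1 : ℝ) := by
      apply Real.rpow_le_rpow_of_exponent_le hC
      rw [div_le_one hs0]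
      exact hs
    rwa [Real.rpow_one] at this
  have h4 : a k = C * b k := by
    simp only [hb]
    field_simp
  rw [h4]
  calc C * b k ≤ C * (C * ((k : ℝ) + 1) ^ (-(1 / s))) :=
        mul_le_mul_of_nonneg_left (h2.trans h3) hC0.le
    _ = _ := by ring

variable {H : Type*} [NormedAddCommGroup H] [InnerProductSpace ℝ H] {ι : Type*}
variable {g : ι → H} {p q : ℝ}

/-- The residuals satisfy a power bound. -/
theorem rate (hg : Riesz g p q) (hp0 : 0 < p) (P : Par)
    (hpar : 1 - P.β + P.mu / p ≤ P.lam) {c : ℝ} (hc : 0 ≤ c) (hcp : c < p)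
    (hw : ∀ v, 0 ≤ v → -(c * v ^ 2) ≤ P.w v)
    {F : ℕ → H} {φ : ℕ → ι}
    (hstep : ∀ k, F (k + 1) = F k - ⟪F k, g (φ k)⟫ • g (φ k))
    (hmax : ∀ k i, |⟪F k, g i⟫| ≤ |⟪F k, g (φ k)⟫|)
    {x : ι → ℝ} (hx1 : Summable (fun i => |x i|)) (hxs : ∑' i, |x i| ≤ 1)
    (hx : HasSum (fun i => x i • g i) (F 0)) (k : ℕ) :
    ‖F k‖ ≤ (1 + |P.A|) / (1 - c / p) * ((k : ℝ) + 1) ^ (-((1 - P.β) / (2 * (1 + P.β)))) := by
  classical
  have hβ := P.hβ
  have hβ1 := P.hβ1
  have h1β := P.h1β
  set d : ℝ := 1 - c / p with hd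
  have hd0 : 0 < d := by
    rw [hd, sub_pos, div_lt_one (by positivity)]
    exact hcp
  have hd1 : d ≤ 1 := by
    rw [hd]
    have : 0 ≤ c / p := by positivity
    linarith
  set C : ℝ := (1 + |P.A|) / d with hC
  have hC1 : 1 ≤ C := by
    rw [hC, le_div_iff₀ hd0]
    have := abs_nonneg (P.A)
    linarith
  have hC0 : 0 < C := by linarith
  -- initial norm
  have hF0 : ‖F 0‖ ≤ 1 := by
    rw [← hx.tsum_eq]
    refine (norm_tsum_le_tsum_norm ?_).trans ?_
    · simpa [norm_smul, hg.norm_one] using hx1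
    · simpa [norm_smul, hg.norm_one] using hxs
  -- positivity of the maximal inner product
  have hpos : ∀ k, ∀ x : ι → ℝ, HasSum (fun i => x i • g i) (F k) → F k ≠ 0 →
      0 < |⟪F k, g (φ k)⟫| := by
    intro k x hx hF
    by_contra hcon
    have h0 : |⟪F k, g (φ k)⟫| = 0 := le_antisymm (not_lt.1 hcon) (abs_nonneg _)
    have h1 : ∀ i, ⟪F k, g i⟫ = 0 := by
      intro i
      have := hmax k i
      rw [h0] at this
      exact abs_eq_zero.1 (le_antisymm this (abs_nonneg _))
    have h2 := hasSum_energy hx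
    simp only [h1, mul_zero] at h2
    have h3 := h2.unique hasSum_zero
    exact hF (norm_eq_zero.1 (pow_eq_zero_iff (two_ne_zero) |>.1 h3))
  -- the invariant
  have hinv : ∀ k, F k ≠ 0 → ∃ (D : ℝ) (x : ι → ℝ), 0 < D ∧ D ≤ |⟪F k, g (φ k)⟫| ∧
      Summable (fun i => |x i|) ∧ HasSum (fun i => x i • g i) (F k) ∧
      Gam P D x (F k) ≤ 1 + |P.A| := by
    intro k
    induction k with
    | zero =>
      intro hF
      have h1 := hpos 0 x hx hF
      have h2 : |⟪F 0, g (φ 0)⟫| ≤ 1 := by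
        refine (abs_real_inner_le_norm _ _).trans ?_
        rw [hg.norm_one, mul_one]
        exact hF0
      exact ⟨|⟪F 0, g (φ 0)⟫|, x, h1, le_rfl, hx1, hx, Gam_init P h1 h2 hx1 hxs hx (hmax 0)⟩
    | succ k ih =>
      intro hF
      have hFk : F k ≠ 0 := by
        intro h0
        apply hF
        rw [hstep k, h0]
        simp
      obtain ⟨D, x, hD, hDle, hxs, hxf, hG⟩ := ih hFk
      set r := ⟪F k, g (φ k)⟫ with hr
      set x' := Function.update x (φ k) (x (φ k) - r) with hx'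
      have hx's : Summable (fun i => |x' i|) := by
        have : (fun i => |x' i|) = Function.update (fun i => |x i|) (φ k) (|x (φ k) - r|) := by
          funext j
          by_cases h : j = φ k
          · subst h; simp [hx']
          · simp [hx', Function.update_of_ne h]
        rw [this]
        exact (hxs.hasSum.update (φ k) _).summable
      have hx'f : HasSum (fun i => x' i • g i) (F (k + 1)) := by
        have : (fun i => x' i • g i)
            = Function.update (fun i => x i • g i) (φ k) ((x (φ k) - r) • g (φ k)) := by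
          funext j
          by_cases h : j = φ k
          · subst h; simp [hx']
          · simp [hx', Function.update_of_ne h]
        rw [this]
        have h1 := hxf.update (φ k) ((x (φ k) - r) • g (φ k))
        convert h1 using 1
        rw [hstep k, sub_smul]
        abel
      have hG' : Gam P D x' (F (k + 1)) ≤ 1 + |P.A| := by
        have := Gam_step hg.norm_one P hD hxs (f := F k) (φ k) hDle
        rw [hstep k]
        exact this.trans hG
      have hδ := hpos (k + 1) x' hx'f hF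
      rcases le_total D |⟪F (k + 1), g (φ (k + 1))⟫| with h | h
      · exact ⟨D, x', hD, h, hx's, hx'f, hG'⟩
      · refine ⟨_, x', hδ, le_rfl, hx's, hx'f, ?_⟩
        exact (Gam_scale hg hp0 P hpar hδ h hx's hx'f (hmax (k + 1))).trans hG'
  -- the basic inequality
  have hbasic : ∀ k, ‖F k‖ ^ 2 ≤ C * |⟪F k, g (φ k)⟫| ^ (1 - P.β) := by
    intro k
    by_cases hF : F k = 0
    · rw [hF]
      have : 0 ≤ |⟪(0 : H), g (φ k)⟫| ^ (1 - P.β) := Real.rpow_nonneg (abs_nonneg _) _
      have h2 := mul_nonneg hC0.le this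
      simpa using h2
    · obtain ⟨D, x, hD, hDle, hxs, hxf, hG⟩ := hinv k hF
      have h1 := le_Gam hg hp0 P hc hw hD hxs hxf
      have h2 : d * (D ^ (P.β - 1) * ‖F k‖ ^ 2) ≤ 1 + |P.A| := h1.trans hG
      have h5 : D ^ (1 - P.β) * D ^ (P.β - 1) = 1 := by
        rw [← Real.rpow_add hD]
        simp
      have h6 : 0 < D ^ (1 - P.β) := Real.rpow_pos_of_pos hD _
      have h3 : ‖F k‖ ^ 2 ≤ C * D ^ (1 - P.β) := by
        rw [hC, div_mul_eq_mul_div, le_div_iff₀ hd0]
        have h4 := mul_le_mul_of_nonneg_right h2 h6.le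
        have h7 : d * (D ^ (P.β - 1) * ‖F k‖ ^ 2) * D ^ (1 - P.β) =
            d * ‖F k‖ ^ 2 * (D ^ (1 - P.β) * D ^ (P.β - 1)) := by ring
        rw [h7, h5] at h4
        linarith
      have h4 : C * D ^ (1 - P.β) ≤ C * |⟪F k, g (φ k)⟫| ^ (1 - P.β) := by
        apply mul_le_mul_of_nonneg_left _ hC0.le
        exact Real.rpow_le_rpow hD.le hDle h1β.le
      linarith
  have hnorm : ∀ k, ‖F (k + 1)‖ ^ 2 = ‖F k‖ ^ 2 - ⟪F k, g (φ k)⟫ ^ 2 := by
    intro k
    rw [hstep k, norm_sub_sq_real, real_inner_smul_right, norm_smul, hg.norm_one,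
      Real.norm_eq_abs, mul_one, sq_abs]
    ring
  set s : ℝ := (1 + P.β) / (1 - P.β) with hs
  have hs1 : 1 ≤ s := by
    rw [hs, le_div_iff₀ h1β]
    linarith
  have hseq := seq_pow (a := fun k => ‖F k‖ ^ 2) (C := C) (s := s) hC1 hs1
    (fun k => sq_nonneg _) (by
      have := norm_nonneg (F 0)
      nlinarith) (by
      intro k
      rw [hnorm k]
      have h1 := hbasic k
      have h2 : ‖F k‖ ^ 2 / C ≤ |⟪F k, g (φ k)⟫| ^ (1 - P.β) := by
        rw [div_le_iff₀ hC0]
        linarith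
      have h3 := Real.rpow_le_rpow (by positivity) h2 (by positivity : 0 ≤ 1 + s)
      rw [← Real.rpow_mul (abs_nonneg _)] at h3
      have e : (1 - P.β) * (1 + s) = 2 := by
        rw [hs]
        field_simp
        ring
      rw [e] at h3
      have e2 : |⟪F k, g (φ k)⟫| ^ (2 : ℝ) = ⟪F k, g (φ k)⟫ ^ 2 := by
        rw [Real.rpow_two, sq_abs]
      rw [e2] at h3
      linarith) k
  have hk0 : (0 : ℝ) < (k : ℝ) + 1 := by positivity
  have hfin : ‖F k‖ ^ 2 ≤ (C * ((k : ℝ) + 1) ^ (-((1 - P.β) / (2 * (1 + P.β))))) ^ 2 := by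
    refine hseq.trans (le_of_eq ?_)
    rw [mul_pow]
    congr 1
    rw [← Real.rpow_natCast (((k : ℝ) + 1) ^ (-((1 - P.β) / (2 * (1 + P.β))))) 2,
      ← Real.rpow_mul hk0.le]
    congr 1
    rw [hs]
    push_cast
    field_simp
  exact le_of_sq_le_sq hfin (by positivity)

end Pool.Agent.Lib.MP_3cbb73_an.Upper
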