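import Mathlib

set_option autoImplicit false

/-! The choice of the ratio of the scales. -/

namespace Pool.Agent.Lib.MP_3cbb73_an.Upper

open Real Filter Topology

/-- For a fine geometric sequence of scales the discrete condition holds. -/
lemma exists_ratio {β κ A : ℝ} (hβ : 0 < β) (hβ1 : β < 1)
    (h : κ * (1 - β) < A * β * ((1 - β ^ 2) ^ (-(1 / β)) / (1 + β))) :
    ∃ (q : ℝ) (K : ℕ), 0 < q ∧ q < 1 ∧
      κ * (q ^ (β - 1) - 1) ≤ A * (1 - q ^ β) * (q⁻¹) ^ (K + 1) *
        (((q ^ β)⁻¹) ^ (K + 1) -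
          (1 / q - 1) * ∑ i ∈ Finset.range (K + 1), ((q ^ β)⁻¹) ^ i) := by
  have h1β2 : 0 < 1 - β ^ 2 := by nlinarith
  have h1β2' : 1 - β ^ 2 < 1 := by nlinarith
  set L : ℝ := -Real.log (1 - β ^ 2) / β with hL
  have hL0 : 0 < L := by
    rw [hL]
    apply div_pos _ hβ
    have := Real.log_neg h1β2 h1β2'
    linarith
  have hE : (1 - β ^ 2) ^ (-(1 / β)) = Real.exp L := by
    rw [Real.rpow_def_of_pos h1β2, hL]
    congr 1
    ring
  have hEβ : Real.exp (β * L) = 1 / (1 - β ^ 2) := by
    rw [hL, show β * (-Real.log (1 - β ^ 2) / β) = -Real.log (1 - β ^ 2) by field_simp,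
      Real.exp_neg, Real.exp_log h1β2, one_div]
  rw [hE] at h
  set G : ℝ → ℝ := fun x => A * Real.exp L * ((1 - Real.exp (-(β * x))) * Real.exp (β * L) -
    (Real.exp x - 1) * (Real.exp (β * L) - 1) * Real.exp (-(β * x))) -
      κ * (Real.exp ((1 - β) * x) - 1) with hG
  have hG0 : G 0 = 0 := by simp [hG]
  set G' : ℝ := A * Real.exp L * (β * Real.exp (β * L) - (Real.exp (β * L) - 1)) -
    κ * (1 - β) with hG'
  have hG'0 : 0 < G' := by
    have e : β * Real.exp (β * L) - (Real.exp (β * L) - 1) = β / (1 + β) := by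
      rw [hEβ, show 1 - β ^ 2 = (1 - β) * (1 + β) by ring]
      have : 1 - β ≠ 0 := by linarith
      field_simp
      ring
    rw [hG', e]
    have e2 : A * Real.exp L * (β / (1 + β)) = A * β * (Real.exp L / (1 + β)) := by
      field_simp
    rw [e2]
    linarith
  have hder : HasDerivAt G G' 0 := by
    have h1 : HasDerivAt (fun x : ℝ => Real.exp (-(β * x))) (-β) 0 := by
      have := ((hasDerivAt_id (0 : ℝ)).const_mul β).neg.exp
      simpa using this
    have h2 : HasDerivAt (fun x : ℝ => Real.exp x) 1 0 := by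
      have := Real.hasDerivAt_exp 0
      simpa using this
    have h3 : HasDerivAt (fun x : ℝ => Real.exp ((1 - β) * x)) (1 - β) 0 := by
      have := ((hasDerivAt_id (0 : ℝ)).const_mul (1 - β)).exp
      simpa using this
    have h4 := (((h1.const_sub 1).mul_const (Real.exp (β * L))).sub
      (((h2.sub_const 1).mul_const (Real.exp (β * L) - 1)).mul h1)).const_mul (A * Real.exp L)
    have h5 := h4.sub ((h3.sub_const 1).const_mul κ)
    refine h5.congr_deriv ?_
    simp only [mul_zero, neg_zero, Real.exp_zero, sub_self, zero_mul, add_zero, mul_one, one_mul]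
    rw [hG']
    ring
  -- the sequence of steps
  have hseq : Tendsto (fun K : ℕ => L / ((K : ℝ) + 1)) atTop (𝓝[≠] 0) := by
    rw [tendsto_nhdsWithin_iff]
    constructor
    · exact tendsto_const_nhds.div_atTop
        (tendsto_atTop_add_const_right _ _ tendsto_natCast_atTop_atTop)
    · filter_upwards with K
      have : 0 < L / ((K : ℝ) + 1) := by positivity
      exact this.ne'
  have hslope := (hasDerivAt_iff_tendsto_slope_zero.1 hder).comp hseq
  have hev := hslope.eventually (eventually_gt_nhds hG'0)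
  obtain ⟨K, hK⟩ := hev.exists
  simp only [Function.comp, zero_add, hG0, sub_zero, smul_eq_mul] at hK
  set t : ℝ := L / ((K : ℝ) + 1) with ht
  have ht0 : 0 < t := by positivity
  have hGt : 0 < G t := by
    by_contra hcon
    have : t⁻¹ * G t ≤ 0 := mul_nonpos_of_nonneg_of_nonpos (by positivity) (not_lt.1 hcon)
    linarith
  have htK : ((K + 1 : ℕ) : ℝ) * t = L := by
    rw [ht]
    push_cast
    field_simp
  refine ⟨Real.exp (-t), K, Real.exp_pos _, by rw [Real.exp_lt_one_iff]; linarith, ?_⟩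
  have e1 : Real.exp (-t) ^ (β - 1) = Real.exp ((1 - β) * t) := by
    rw [← Real.exp_mul]
    congr 1
    ring
  have e2 : Real.exp (-t) ^ β = Real.exp (-(β * t)) := by
    rw [← Real.exp_mul]
    congr 1
    ring
  have e3 : ((Real.exp (-t))⁻¹) ^ (K + 1) = Real.exp L := by
    rw [← Real.exp_neg, neg_neg, ← Real.exp_nat_mul, htK]
  have e4 : (Real.exp (-(β * t)))⁻¹ = Real.exp (β * t) := by
    rw [← Real.exp_neg, neg_neg]
  have e5 : Real.exp (β * t) ^ (K + 1) = Real.exp (β * L) := by
    rw [← Real.exp_nat_mul]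
    congr 1
    rw [← htK]
    ring
  have hne : Real.exp (β * t) - 1 ≠ 0 := by
    have : 1 < Real.exp (β * t) := by
      rw [Real.one_lt_exp_iff]
      positivity
    linarith
  have e6 : ∑ i ∈ Finset.range (K + 1), Real.exp (β * t) ^ i =
      (Real.exp (β * L) - 1) / (Real.exp (β * t) - 1) := by
    rw [geom_sum_eq (by intro h; apply hne; rw [h]; ring), e5]
  have e7 : 1 / Real.exp (-t) = Real.exp t := by
    rw [one_div, ← Real.exp_neg, neg_neg]
  rw [e1, e2, e3, e4, e5, e6, e7]
  have e8 : A * (1 - Real.exp (-(β * t))) * Real.exp L *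
      (Real.exp (β * L) - (Real.exp t - 1) * ((Real.exp (β * L) - 1) / (Real.exp (β * t) - 1))) =
      A * Real.exp L * ((1 - Real.exp (-(β * t))) * Real.exp (β * L) -
        (Real.exp t - 1) * (Real.exp (β * L) - 1) *
          ((1 - Real.exp (-(β * t))) / (Real.exp (β * t) - 1))) := by
    ring
  have e9 : (1 - Real.exp (-(β * t))) / (Real.exp (β * t) - 1) = Real.exp (-(β * t)) := by
    rw [div_eq_iff hne, mul_sub, ← Real.exp_add, neg_add_cancel, Real.exp_zero, mul_one]
  rw [e8, e9]
  simp only [hG] at hGt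
  linarith

end Pool.Agent.Lib.MP_3cbb73_an.Upper
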