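import Pool.Agent.Lib.MP_3cbb73_an.Upper.Coercive

set_option autoImplicit false

namespace Pool.Agent.Lib.MP_3cbb73_an.Upper

open Real Set

namespace Par

variable (P : Par)

/-- Coercivity of the profile below a smaller threshold. -/
lemma coercive2 {ζ : ℝ} (hζ1 : 1 ≤ ζ) (hζ : ζ * (1 - P.β ^ 2) ≤ 1) (h : 1 - P.β < ζ * P.lam)
    (h' : ζ * P.lam < 2) (hβ2 : P.β ≤ 1 / 2) (hlam2 : 1 ≤ P.lam * (2 + P.β)) :
    ∃ c : ℝ, 0 ≤ c ∧ c < P.mu / (ζ * P.lam - 1 + P.β) ∧ ∀ v, 0 ≤ v → -(c * v ^ 2) ≤ P.w v := by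
  have hmu := P.hmu
  have hV := P.Vpos
  have hβ := P.hβ
  have hK := P.Kpos
  have h1β := P.h1β
  have h1β2 := P.h1β2
  have hlm := P.hlm
  have hlam : 0 < P.lam := by
    by_contra hcon
    have : P.lam * (2 + P.β) ≤ 0 := mul_nonpos_of_nonpos_of_nonneg (not_lt.1 hcon) (by linarith)
    linarith
  set z : ℝ := ζ * P.lam with hz
  have hd : 0 < z - 1 + P.β := by linarith
  have hzlam : z * (1 - P.β ^ 2) ≤ P.lam := by
    rw [hz]
    nlinarith
  have hz0 : 0 < z := by rw [hz]; positivity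
  have hKT : 1 / (4 * P.K) < P.mu / (z - 1 + P.β) := by
    unfold K
    rw [div_lt_div_iff₀ (by positivity) hd]
    have e : P.mu * (4 * (P.mu * P.V ^ 2 / (1 + P.β))) =
        (2 * P.mu * P.V) ^ 2 / (1 + P.β) := by ring
    rw [e, ← hlm, lt_div_iff₀ (by positivity)]
    have h3 : 1 ≤ (1 - P.β) * (1 + 2 * P.β) := by nlinarith
    have h4 : z * (1 + P.β) ≤ P.lam * (1 + 2 * P.β) := by
      have h5 : z * (1 + P.β) * 1 ≤ z * (1 + P.β) * ((1 - P.β) * (1 + 2 * P.β)) :=
        mul_le_mul_of_nonneg_left h3 (by positivity)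
      have h6 : z * (1 + P.β) * ((1 - P.β) * (1 + 2 * P.β)) =
          (z * (1 - P.β ^ 2)) * (1 + 2 * P.β) := by ring
      have h7 : (z * (1 - P.β ^ 2)) * (1 + 2 * P.β) ≤ P.lam * (1 + 2 * P.β) :=
        mul_le_mul_of_nonneg_right hzlam (by positivity)
      linarith
    nlinarith [sq_nonneg (P.lam - 1 / 2)]
  have main : ∀ c1 : ℝ, c1 < P.mu / (z - 1 + P.β) →
      (∀ v, 0 ≤ v → v ≤ P.V → -(c1 * v ^ 2) ≤ P.w v) →
      ∃ c : ℝ, 0 ≤ c ∧ c < P.mu / (z - 1 + P.β) ∧ ∀ v, 0 ≤ v → -(c * v ^ 2) ≤ P.w v := by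
    intro c1 hc1 hw
    refine ⟨max c1 (1 / (4 * P.K)), le_max_of_le_right (by positivity), max_lt hc1 hKT,
      fun v hv => ?_⟩
    rcases le_total v P.V with h | h
    · refine le_trans ?_ (hw v hv h)
      have := mul_le_mul_of_nonneg_right (le_max_left c1 (1 / (4 * P.K))) (sq_nonneg v)
      linarith
    · exact P.w_lower_tail (le_max_right _ _) h
  rcases le_or_gt 1 P.lam with hl | hl
  · -- tangent at `V`
    refine main (P.mu / (1 + P.β)) ?_ (fun v hv hvV => ?_)
    · exact div_lt_div_of_pos_left hmu hd (by linarith)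
    · refine P.w_lower_of_tangent hV ?_ ?_ hv hvV
      · have e : P.C * (1 - P.β) * P.V ^ P.β = (1 - P.β) * (P.C * P.V ^ P.β) := by ring
        rw [e, P.C_Vβ, ← hlm]
        unfold A
        rw [show 1 - P.β ^ 2 = (1 - P.β) * (1 + P.β) by ring]
        have e2 : (1 - P.β) * ((P.lam + P.β) / (P.β * ((1 - P.β) * (1 + P.β)))) =
            (P.lam + P.β) / (P.β * (1 + P.β)) := by
          field_simp
        rw [e2, div_le_div_iff₀ (by positivity) hβ]
        nlinarith [mul_pos hβ hβ, mul_nonneg (mul_pos hβ hβ).le (sub_nonneg.2 hl)]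
      · have e : P.C * P.β * P.V ^ (P.β - 1) = P.β * (P.C * P.V ^ (P.β - 1)) := by ring
        rw [e, P.C_Vβ1]
        unfold B
        apply le_of_eq
        rw [show 1 - P.β ^ 2 = (1 - P.β) * (1 + P.β) by ring]
        field_simp
        ring
  · -- tangent at a smaller point
    set θ : ℝ := (1 - P.lam) / (P.lam * (1 + P.β)) with hθ
    have hθ0 : 0 ≤ θ := by
      apply div_nonneg (by linarith)
      positivity
    have hθ1 : θ ≤ 1 := by
      rw [hθ, div_le_one (by positivity)]
      nlinarith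
    set X : ℝ := 1 + θ * P.β with hX
    have hX' : X = (P.lam + P.β) / (P.lam * (1 + P.β)) := by
      rw [hX, hθ]
      field_simp
      ring
    have hX0 : 0 < X := by rw [hX]; positivity
    set a : ℝ := P.V * X ^ (-(1 / P.β)) with ha
    have ha0 : 0 < a := mul_pos hV (Real.rpow_pos_of_pos hX0 _)
    have haβ : a ^ P.β = P.V ^ P.β * X⁻¹ := by
      rw [ha, Real.mul_rpow hV.le (Real.rpow_pos_of_pos hX0 _).le, ← Real.rpow_mul hX0.le,
        show -(1 / P.β) * P.β = -1 by field_simp, Real.rpow_neg_one]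
    have haβ1 : a ^ (P.β - 1) = P.V ^ (P.β - 1) * X ^ ((1 - P.β) / P.β) := by
      rw [ha, Real.mul_rpow hV.le (Real.rpow_pos_of_pos hX0 _).le, ← Real.rpow_mul hX0.le]
      congr 2
      field_simp
      ring
    have hm1 : 1 ≤ (1 - P.β) / P.β := by
      rw [le_div_iff₀ hβ]
      linarith
    have hY : X ^ ((1 - P.β) / P.β) ≤ 1 + θ * ((1 - P.β) / (2 * P.β)) := by
      have m1 : (1 : ℝ) ∈ Ici (0 : ℝ) := by
        simp only [mem_Ici]
        exact zero_le_one
      have m2 : 1 + P.β ∈ Ici (0 : ℝ) := by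
        simp only [mem_Ici]
        positivity
      have h1 := (convexOn_rpow hm1).2 m1 m2 (by linarith : 0 ≤ 1 - θ) hθ0 (by ring)
      simp only [smul_eq_mul, Real.one_rpow] at h1
      have e : (1 - θ) * 1 + θ * (1 + P.β) = X := by rw [hX]; ring
      rw [e] at h1
      have h2 := mul_le_mul_of_nonneg_left (pow_aux hβ hβ2) hθ0
      have e2 : θ * ((1 + P.β) / (2 * P.β)) = θ * ((1 - P.β) / (2 * P.β)) + θ := by
        field_simp
        ring
      linarith
    refine main ((P.mu / (1 + P.β)) * (1 + θ / P.β)) ?_ (fun v hv hvV => ?_)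
    · -- comparison with the threshold
      rw [lt_div_iff₀ hd]
      have h1 : (1 + θ / P.β) * (z - 1 + P.β) < 1 + P.β := by
        have hzl : z / P.lam = ζ := by rw [hz]; field_simp
        have e1 : (1 + θ / P.β) * (z - 1 + P.β) =
            (z - (1 - P.β)) + (1 - P.lam) / (P.β * (1 + P.β)) *
              (z / P.lam - (1 - P.β) / P.lam) := by
          rw [hθ]
          field_simp
          ring
        rw [e1, hzl]
        have e2 : ζ - (1 - P.β) / P.lam ≤ ζ - (1 - P.β) := by
          have : 1 - P.β ≤ (1 - P.β) / P.lam := by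
            rw [le_div_iff₀ hlam]
            nlinarith
          linarith
        have hζ' : ζ ≤ 1 / (1 - P.β ^ 2) := by
          rw [le_div_iff₀ h1β2]
          exact hζ
        have hz' : z ≤ P.lam / (1 - P.β ^ 2) := by
          rw [le_div_iff₀ h1β2]
          exact hzlam
        have h0 : 0 ≤ (1 - P.lam) / (P.β * (1 + P.β)) := div_nonneg (by linarith) (by positivity)
        have e3 : (1 - P.lam) / (P.β * (1 + P.β)) * (ζ - (1 - P.β) / P.lam) ≤
            (1 - P.lam) / (P.β * (1 + P.β)) * (1 / (1 - P.β ^ 2) - (1 - P.β)) :=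
          mul_le_mul_of_nonneg_left (by linarith) h0
        have e4 : (1 - P.lam) / (P.β * (1 + P.β)) * (1 / (1 - P.β ^ 2) - (1 - P.β)) ≤
            (1 - P.lam) / (1 - P.β ^ 2) := by
          have e5 : 1 / (1 - P.β ^ 2) - (1 - P.β) =
              P.β * (1 + P.β - P.β ^ 2) / (1 - P.β ^ 2) := by
            field_simp
            ring
          rw [e5]
          have e6 : (1 - P.lam) / (P.β * (1 + P.β)) *
              (P.β * (1 + P.β - P.β ^ 2) / (1 - P.β ^ 2)) =
              (1 - P.lam) / (1 - P.β ^ 2) * ((1 + P.β - P.β ^ 2) / (1 + P.β)) := by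
            field_simp
          rw [e6]
          have e7 : (1 + P.β - P.β ^ 2) / (1 + P.β) ≤ 1 := by
            rw [div_le_one (by positivity)]
            nlinarith
          have e8 : 0 ≤ (1 - P.lam) / (1 - P.β ^ 2) := div_nonneg (by linarith) h1β2.le
          nlinarith
        have e9 : P.lam / (1 - P.β ^ 2) + (1 - P.lam) / (1 - P.β ^ 2) < 2 := by
          rw [← add_div, div_lt_iff₀ h1β2]
          nlinarith
        linarith
      calc P.mu / (1 + P.β) * (1 + θ / P.β) * (z - 1 + P.β)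
          = P.mu / (1 + P.β) * ((1 + θ / P.β) * (z - 1 + P.β)) := by ring
        _ < P.mu / (1 + P.β) * (1 + P.β) := by
            apply mul_lt_mul_of_pos_left h1
            positivity
        _ = P.mu := by field_simp
    · refine P.w_lower_of_tangent ha0 ?_ ?_ hv hvV
      · have e : P.C * (1 - P.β) * a ^ P.β = (1 - P.β) * (P.C * P.V ^ P.β) * X⁻¹ := by
          rw [haβ]; ring
        rw [e, P.C_Vβ, ← hlm, hX']
        unfold A
        rw [show 1 - P.β ^ 2 = (1 - P.β) * (1 + P.β) by ring]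
        apply le_of_eq
        field_simp
      · have e : P.C * P.β * a ^ (P.β - 1) =
            P.β * (P.C * P.V ^ (P.β - 1)) * X ^ ((1 - P.β) / P.β) := by
          rw [haβ1]; ring
        rw [e, P.C_Vβ1]
        unfold B
        have h5 : P.β * (2 * P.mu / (P.β * (1 - P.β ^ 2))) * X ^ ((1 - P.β) / P.β) ≤
            P.β * (2 * P.mu / (P.β * (1 - P.β ^ 2))) * (1 + θ * ((1 - P.β) / (2 * P.β))) :=
          mul_le_mul_of_nonneg_left hY (by positivity)
        have h6 : P.β * (2 * P.mu / (P.β * (1 - P.β ^ 2))) * (1 + θ * ((1 - P.β) / (2 * P.β))) -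
            P.mu / (1 - P.β) = P.mu / (1 + P.β) * (1 + θ / P.β) := by
          rw [show 1 - P.β ^ 2 = (1 - P.β) * (1 + P.β) by ring]
          field_simp
          ring
        linarith

end Par

end Pool.Agent.Lib.MP_3cbb73_an.Upper
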