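import Pool.Agent.Lib.MP_3cbb73_an.Rate
import Pool.Agent.Lib.MP_3cbb73_an.Upper.Rate

set_option autoImplicit false

/-! The rate of convergence, with a comparison of the residuals at different scales. -/

namespace Pool.Agent.Lib.MP_3cbb73_an.Upper

open Real Filter Topology
open scoped RealInnerProductSpace

open Pool.Agent.Lib.MP_3cbb73_an (Riesz hasSum_energy seq_bound)

/-- A linear recursive inequality with a delay. -/
lemma delay {G h σ : ℕ → ℝ} {A B q Q : ℝ} {K : ℕ} (hA : 0 ≤ A) (hB : 0 ≤ B) (hq : 0 < q)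
    (hh : ∀ j, 0 ≤ h j)
    (h1 : ∀ j, G (j + 1) ≤ G j + A * h j - B * σ j)
    (h2 : ∀ j, (Q⁻¹) ^ (K + 1) * h (j + (K + 1)) -
      (1 / q - 1) * ∑ i ∈ Finset.range (K + 1), (Q⁻¹) ^ i * h (j + i) ≤ q ^ (K + 1) * σ j)
    (h3 : A ≤ B * (q⁻¹) ^ (K + 1) * ((Q⁻¹) ^ (K + 1) -
      (1 / q - 1) * ∑ i ∈ Finset.range (K + 1), (Q⁻¹) ^ i))
    (hν : 0 ≤ 1 / q - 1) (hQ : 0 < Q) (j : ℕ) :
    G j ≤ G 0 + B * (q⁻¹) ^ (K + 1) * (Q⁻¹) ^ (K + 1) * ∑ i ∈ Finset.range (K + 1), h i := by
  set ν : ℝ := 1 / q - 1 with hνd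
  set B' : ℝ := B * (q⁻¹) ^ (K + 1) with hB'
  have hB'0 : 0 ≤ B' := by positivity
  set c : ℕ → ℝ := fun i => B' * ((Q⁻¹) ^ (K + 1) -
    ν * ∑ l ∈ Finset.Ico (i + 1) (K + 1), (Q⁻¹) ^ l) with hc
  have hcstep : ∀ i, i < K → c i = c (i + 1) - B' * ν * (Q⁻¹) ^ (i + 1) := by
    intro i hi
    simp only [hc]
    rw [Finset.sum_eq_sum_Ico_succ_bot (by omega : i + 1 < K + 1)]
    ring
  have hcK : c K = B' * (Q⁻¹) ^ (K + 1) := by
    simp only [hc]
    rw [Finset.Ico_self, Finset.sum_empty]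
    ring
  have hc0 : A + B' * ν ≤ c 0 := by
    simp only [hc]
    have e : ∑ i ∈ Finset.range (K + 1), (Q⁻¹) ^ i =
        (∑ l ∈ Finset.Ico 1 (K + 1), (Q⁻¹) ^ l) + 1 := by
      rw [Finset.range_eq_Ico, Finset.sum_eq_sum_Ico_succ_bot (by omega : 0 < K + 1)]
      simp only [pow_zero, zero_add]
      ring
    rw [e] at h3
    simp only [zero_add]
    nlinarith
  have hcpos : ∀ i, i ≤ K → 0 ≤ c i := by
    intro i
    induction i with
    | zero => intro _; have : 0 ≤ B' * ν := by positivity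
              linarith
    | succ i ih =>
      intro hi
      have := ih (by omega)
      have h4 := hcstep i (by omega)
      have : 0 ≤ B' * ν * (Q⁻¹) ^ (i + 1) := by positivity
      linarith
  have key : ∀ j, G j + ∑ i ∈ Finset.range (K + 1), c i * h (j + i) ≤
      G 0 + ∑ i ∈ Finset.range (K + 1), c i * h i := by
    intro j
    induction j with
    | zero => simp
    | succ j ih =>
      refine le_trans ?_ ih
      have e1 : ∑ i ∈ Finset.range (K + 1), c i * h (j + 1 + i) =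
          (∑ i ∈ Finset.range K, c i * h (j + i + 1)) + c K * h (j + (K + 1)) := by
        rw [Finset.sum_range_succ]
        congr 1
        · apply Finset.sum_congr rfl
          intro i _
          rw [show j + 1 + i = j + i + 1 by ring]
        · rw [show j + 1 + K = j + (K + 1) by ring]
      have e2 : ∑ i ∈ Finset.range (K + 1), c i * h (j + i) =
          (∑ i ∈ Finset.range K, c (i + 1) * h (j + i + 1)) + c 0 * h j := by
        rw [Finset.sum_range_succ']
        simp only [add_zero]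
        congr 1
      have e3 : ∑ i ∈ Finset.range (K + 1), (Q⁻¹) ^ i * h (j + i) =
          (∑ i ∈ Finset.range K, (Q⁻¹) ^ (i + 1) * h (j + i + 1)) + h j := by
        rw [Finset.sum_range_succ']
        simp only [add_zero, pow_zero, one_mul]
        congr 1
      have e4 : (∑ i ∈ Finset.range K, c i * h (j + i + 1)) =
          (∑ i ∈ Finset.range K, c (i + 1) * h (j + i + 1)) -
            B' * ν * ∑ i ∈ Finset.range K, (Q⁻¹) ^ (i + 1) * h (j + i + 1) := by
        rw [Finset.mul_sum, ← Finset.sum_sub_distrib]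
        apply Finset.sum_congr rfl
        intro i hi
        rw [hcstep i (Finset.mem_range.1 hi)]
        ring
      have h5 := h2 j
      rw [e3] at h5
      have h6 : B' * ((Q⁻¹) ^ (K + 1) * h (j + (K + 1)) - ν *
          ((∑ i ∈ Finset.range K, (Q⁻¹) ^ (i + 1) * h (j + i + 1)) + h j)) ≤ B * σ j := by
        refine (mul_le_mul_of_nonneg_left h5 hB'0).trans (le_of_eq ?_)
        rw [hB', inv_pow]
        field_simp
      have h7 : (A + B' * ν) * h j ≤ c 0 * h j := mul_le_mul_of_nonneg_right hc0 (hh j)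
      have h8 := h1 j
      rw [e1, e2, e4, hcK]
      nlinarith
  have h9 : G j ≤ G 0 + ∑ i ∈ Finset.range (K + 1), c i * h i := by
    refine le_trans ?_ (key j)
    have : 0 ≤ ∑ i ∈ Finset.range (K + 1), c i * h (j + i) := by
      apply Finset.sum_nonneg
      intro i hi
      exact mul_nonneg (hcpos i (by have := Finset.mem_range.1 hi; omega)) (hh _)
    linarith
  refine h9.trans ?_
  have h10 : ∑ i ∈ Finset.range (K + 1), c i * h i ≤
      ∑ i ∈ Finset.range (K + 1), B * (q⁻¹) ^ (K + 1) * (Q⁻¹) ^ (K + 1) * h i := by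
    apply Finset.sum_le_sum
    intro i _
    apply mul_le_mul_of_nonneg_right _ (hh i)
    simp only [hc]
    rw [← hB']
    apply mul_le_mul_of_nonneg_left _ hB'0
    have : 0 ≤ ν * ∑ l ∈ Finset.Ico (i + 1) (K + 1), (Q⁻¹) ^ l := by positivity
    linarith
  rw [← Finset.mul_sum] at h10
  linarith

variable {H : Type*} [NormedAddCommGroup H] [InnerProductSpace ℝ H] {ι : Type*}
variable {g : ι → H} {p q' : ℝ}

/-- change of scale, without information on the residual -/
lemma Gam_scale' (hg : Riesz g p q') (hp : 0 < p) (P : Par) {D D' : ℝ} (hD' : 0 < D')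
    (hDD : D' ≤ D) {x : ι → ℝ} {f : H} (hx1 : Summable (fun i => |x i|))
    (hx : HasSum (fun i => x i • g i) f) :
    Gam P D' x f ≤ Gam P D x f +
      (1 + P.B / p) * (‖f‖ ^ 2 * (D' ^ (P.β - 1) - D ^ (P.β - 1))) -
      P.A * ((∑' i, |x i|) * (D ^ P.β - D' ^ P.β)) := by
  have hD : 0 < D := lt_of_lt_of_le hD' hDD
  have hβ := P.hβ
  have hβ1 := P.hβ1
  have hB := P.Bpos
  set S1 : ℝ := ∑' i, |x i| with hS1
  set S2 : ℝ := ∑' i, x i ^ 2 with hS2
  set δ : ℝ := D' ^ (P.β - 1) - D ^ (P.β - 1) with hδ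
  set ε : ℝ := D ^ P.β - D' ^ P.β with hε
  have hδ0 : 0 ≤ δ := by
    have := Real.rpow_le_rpow_of_nonpos hD' hDD (by linarith : P.β - 1 ≤ 0)
    linarith
  have hsq := hg.summable_sq hp hx
  have hsum1 : Summable (fun i => P.A * |x i| * ε - P.B * x i ^ 2 * δ) :=
    ((hx1.mul_left P.A).mul_right ε).sub ((hsq.mul_left P.B).mul_right δ)
  have h1 : ∑' i, (P.A * |x i| * ε - P.B * x i ^ 2 * δ)
      ≤ ∑' i, (D ^ (1 + P.β) * P.w (|x i| / D) - D' ^ (1 + P.β) * P.w (|x i| / D')) := by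
    apply Summable.tsum_le_tsum _ hsum1 ((summable_w P hD hx1).sub (summable_w P hD' hx1))
    intro i
    have := P.scale (abs_nonneg (x i)) hD' hDD
    rw [sq_abs] at this
    refine le_trans (le_of_eq ?_) this
    rw [hδ, hε]
    ring
  rw [Summable.tsum_sub (summable_w P hD hx1) (summable_w P hD' hx1),
    Summable.tsum_sub ((hx1.mul_left P.A).mul_right ε) ((hsq.mul_left P.B).mul_right δ),
    tsum_mul_right, tsum_mul_right, tsum_mul_left, tsum_mul_left, ← hS1, ← hS2] at h1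
  have hE2 : S2 ≤ ‖f‖ ^ 2 / p := by
    rw [le_div_iff₀ hp]
    have := hg.tsum_sq_le hp hx
    linarith
  have h2 : P.B * S2 * δ ≤ P.B / p * (‖f‖ ^ 2 * δ) := by
    calc P.B * S2 * δ ≤ P.B * (‖f‖ ^ 2 / p) * δ := by gcongr
      _ = _ := by ring
  unfold Gam
  have h6 : D' ^ (P.β - 1) * ‖f‖ ^ 2 - D ^ (P.β - 1) * ‖f‖ ^ 2 = ‖f‖ ^ 2 * δ := by
    rw [hδ]; ring
  linarith

end Pool.Agent.Lib.MP_3cbb73_an.Upper
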