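import Pool.Agent.Lib.MP_3cbb73_an.Upper.Times

set_option autoImplicit false

/-! The rate of convergence with look-ahead. -/

namespace Pool.Agent.Lib.MP_3cbb73_an.Upper

open Real Filter Topology
open scoped RealInnerProductSpace

open Pool.Agent.Lib.MP_3cbb73_an (Riesz hasSum_energy seq_bound)

variable {H : Type*} [NormedAddCommGroup H] [InnerProductSpace ℝ H] {ι : Type*}
variable {g : ι → H} {F : ℕ → H} {φ : ℕ → ι} {p q' : ℝ}

/-- the coefficients of the residuals -/
noncomputable def cf [DecidableEq ι] (g : ι → H) (F : ℕ → H) (φ : ℕ → ι) (x0 : ι → ℝ) :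
    ℕ → ι → ℝ
  | 0 => x0
  | n + 1 => Function.update (cf g F φ x0 n) (φ n) (cf g F φ x0 n (φ n) - ⟪F n, g (φ n)⟫)

lemma IsRun.cf_spec [DecidableEq ι] (h : IsRun g F φ) {x0 : ι → ℝ}
    (hx1 : Summable (fun i => |x0 i|)) (hx : HasSum (fun i => x0 i • g i) (F 0)) (n : ℕ) :
    Summable (fun i => |cf g F φ x0 n i|) ∧ HasSum (fun i => cf g F φ x0 n i • g i) (F n) := by
  induction n with
  | zero => exact ⟨hx1, hx⟩
  | succ k ih =>
    obtain ⟨hxs, hxf⟩ := ih
    set x := cf g F φ x0 k with hxd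
    set r := ⟪F k, g (φ k)⟫ with hr
    have hcf : cf g F φ x0 (k + 1) = Function.update x (φ k) (x (φ k) - r) := rfl
    rw [hcf]
    set x' := Function.update x (φ k) (x (φ k) - r) with hx'
    constructor
    · have : (fun i => |x' i|) = Function.update (fun i => |x i|) (φ k) (|x (φ k) - r|) := by
        funext j
        by_cases h : j = φ k
        · subst h; simp [hx']
        · simp [hx', Function.update_of_ne h]
      rw [this]
      exact (hxs.hasSum.update (φ k) _).summable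
    · have : (fun i => x' i • g i)
          = Function.update (fun i => x i • g i) (φ k) ((x (φ k) - r) • g (φ k)) := by
        funext j
        by_cases h : j = φ k
        · subst h; simp [hx']
        · simp [hx', Function.update_of_ne h]
      rw [this]
      have h1 := hxf.update (φ k) ((x (φ k) - r) • g (φ k))
      convert h1 using 1
      rw [h.step k, sub_smul]
      abel

/-- the potential does not increase along steps with large inner products -/
lemma IsRun.Gam_run [DecidableEq ι] (h : IsRun g F φ) (P : Par) {x0 : ι → ℝ}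
    (hx1 : Summable (fun i => |x0 i|)) (hx : HasSum (fun i => x0 i • g i) (F 0)) {D : ℝ}
    (hD : 0 < D) {a b : ℕ} (hab : a ≤ b) (hR : ∀ l, l < b → D ≤ R g F φ l) :
    Gam P D (cf g F φ x0 b) (F b) ≤ Gam P D (cf g F φ x0 a) (F a) := by
  induction b, hab using Nat.le_induction with
  | base => exact le_rfl
  | succ m hm ih =>
    refine le_trans ?_ (ih (fun l hl => hR l (by omega)))
    obtain ⟨h1, _⟩ := h.cf_spec hx1 hx m
    have h2 := Gam_step h.unit P hD h1 (f := F m) (φ m) (hR m (by omega))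
    rw [h.step m]
    exact h2

/-- The main estimate at the scales `q^j`. -/
lemma IsRun.scales [DecidableEq ι] (h : IsRun g F φ) (hg : Riesz g p q') (hp : 0 < p) (P : Par)
    (hA : 0 ≤ P.A) {q : ℝ} (hq : 0 < q) (hq1 : q < 1) {K : ℕ}
    (hcond : (1 + P.B / p) * (q ^ (P.β - 1) - 1) ≤ P.A * (1 - q ^ P.β) * (q⁻¹) ^ (K + 1) *
      (((q ^ P.β)⁻¹) ^ (K + 1) -
        (1 / q - 1) * ∑ i ∈ Finset.range (K + 1), ((q ^ P.β)⁻¹) ^ i))
    {x0 : ι → ℝ} (hx1 : Summable (fun i => |x0 i|)) (hxs : ∑' i, |x0 i| ≤ 1)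
    (hx : HasSum (fun i => x0 i • g i) (F 0)) (j : ℕ) :
    Gam P (q ^ j) (cf g F φ x0 (tm g F φ (q ^ j))) (F (tm g F φ (q ^ j))) ≤
      1 + |P.A| + P.A * (1 - q ^ P.β) * (q⁻¹) ^ (K + 1) * ((q ^ P.β)⁻¹) ^ (K + 1) *
        ((K + 1) * (q⁻¹) ^ K) := by
  have hβ := P.hβ
  have hβ1 := P.hβ1
  have hB := P.Bpos
  have hF0 : ‖F 0‖ ≤ 1 := by
    rw [← hx.tsum_eq]
    refine (norm_tsum_le_tsum_norm ?_).trans ?_
    · simpa [norm_smul, h.unit] using hx1
    · simpa [norm_smul, h.unit] using hxs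
  have hR0 : R g F φ 0 ≤ 1 := by
    unfold R
    refine (abs_real_inner_le_norm _ _).trans ?_
    rw [h.unit, mul_one]
    exact hF0
  have ht0 : tm g F φ (q ^ 0) = 0 := tm_zero (by simpa using hR0)
  set Q : ℝ := q ^ P.β with hQ
  have hQ0 : 0 < Q := Real.rpow_pos_of_pos hq _
  have hQ1 : Q < 1 := Real.rpow_lt_one hq.le hq1 hβ
  have hpowβ : ∀ j : ℕ, (q ^ j) ^ P.β = Q ^ j := by
    intro j
    rw [hQ, ← Real.rpow_natCast q j, ← Real.rpow_mul hq.le, mul_comm, Real.rpow_mul hq.le,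
      Real.rpow_natCast]
  have hpowβ1 : ∀ j : ℕ, (q ^ j) ^ (P.β - 1) = Q ^ j / q ^ j := by
    intro j
    rw [Real.rpow_sub (by positivity), Real.rpow_one, hpowβ]
  set n : ℕ → ℕ := fun j => tm g F φ (q ^ j) with hn
  set U : ℕ → ℝ := fun j => En g F φ q j / q ^ j with hU
  have hE0 : ∀ j, 0 ≤ En g F φ q j := fun j => sq_nonneg _
  have hU0 : ∀ j, 0 ≤ U j := fun j => div_nonneg (hE0 j) (by positivity)
  set S : ℕ → ℝ := fun j => ∑' i, |cf g F φ x0 (n j) i| with hS
  have hinit : Gam P (q ^ 0) (cf g F φ x0 (n 0)) (F (n 0)) ≤ 1 + |P.A| := by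
    have e : n 0 = 0 := ht0
    rw [e, pow_zero]
    refine Gam_init P one_pos le_rfl hx1 hxs hx (fun i => (h.maxi 0 i).trans hR0)
  have hmain := delay (G := fun j => Gam P (q ^ j) (cf g F φ x0 (n j)) (F (n j)))
    (h := fun j => Q ^ j * U j) (σ := fun j => Q ^ j * S j)
    (A := (1 + P.B / p) * (q ^ (P.β - 1) - 1)) (B := P.A * (1 - Q)) (q := q) (Q := Q) (K := K)
    (by
      have h1 : 1 ≤ q ^ (P.β - 1) := Real.one_le_rpow_of_pos_of_le_one_of_nonpos hq hq1.le
        (by linarith)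
      have h2 : 0 ≤ P.B / p := by positivity
      have h3 : 0 ≤ q ^ (P.β - 1) - 1 := by linarith
      positivity)
    (mul_nonneg hA (by linarith)) hq
    (fun j => mul_nonneg (by positivity) (hU0 j))
    (by
      intro j
      obtain ⟨h1, h2⟩ := h.cf_spec hx1 hx (n j)
      have h3 := Gam_scale' hg hp P (D := q ^ j) (D' := q ^ (j + 1)) (by positivity)
        (pow_le_pow_of_le_one hq.le hq1.le (Nat.le_succ j)) h1 h2
      have h4 := h.Gam_run P hx1 hx (D := q ^ (j + 1)) (by positivity)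
        (h.tm_mono hq hq1.le (Nat.le_succ j)) (fun l hl => (lt_tm hl).le)
      refine h4.trans (h3.trans (le_of_eq ?_))
      have e1 : ‖F (n j)‖ ^ 2 * ((q ^ (j + 1)) ^ (P.β - 1) - (q ^ j) ^ (P.β - 1)) =
          (q ^ (P.β - 1) - 1) * (Q ^ j * U j) := by
        rw [hpowβ1, hpowβ1]
        have e2 : q ^ (P.β - 1) = Q / q := by
          have := hpowβ1 1
          simpa using this
        rw [e2]
        simp only [hU, En]
        rw [pow_succ Q, pow_succ q]
        field_simp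
        exact mul_comm _ _
      have e3 : (∑' i, |cf g F φ x0 (n j) i|) * ((q ^ j) ^ P.β - (q ^ (j + 1)) ^ P.β) =
          (1 - Q) * (Q ^ j * S j) := by
        rw [hpowβ, hpowβ, pow_succ Q]
        simp only [hS]
        ring
      rw [e1, e3]
      ring)
    (by
      intro j
      obtain ⟨h1, h2⟩ := h.cf_spec hx1 hx (n j)
      have h3 := h.look hq hq1.le j (K + 1) h1 h2
      have h4 : U (j + (K + 1)) ≤ q ^ (K + 1) * S j +
          (1 / q - 1) * ∑ i ∈ Finset.range (K + 1), U (j + i) := h3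
      have e1 : (Q⁻¹) ^ (K + 1) * (Q ^ (j + (K + 1)) * U (j + (K + 1))) =
          Q ^ j * U (j + (K + 1)) := by
        rw [pow_add Q j (K + 1), inv_pow]
        field_simp
      have e2 : ∑ i ∈ Finset.range (K + 1), (Q⁻¹) ^ i * (Q ^ (j + i) * U (j + i)) =
          Q ^ j * ∑ i ∈ Finset.range (K + 1), U (j + i) := by
        rw [Finset.mul_sum]
        apply Finset.sum_congr rfl
        intro i _
        rw [pow_add Q j i, inv_pow]
        field_simp
      rw [e1, e2]
      have h5 := mul_le_mul_of_nonneg_left h4 (by positivity : 0 ≤ Q ^ j)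
      linarith)
    hcond
    (by
      rw [sub_nonneg, one_le_div hq]
      exact hq1.le) hQ0 j
  refine hmain.trans ?_
  have hsum : ∑ i ∈ Finset.range (K + 1), Q ^ i * U i ≤ (K + 1) * (q⁻¹) ^ K := by
    have h1 : ∀ i ∈ Finset.range (K + 1), Q ^ i * U i ≤ (q⁻¹) ^ K := by
      intro i hi
      have hi' : i ≤ K := by
        have := Finset.mem_range.1 hi
        omega
      have h2 : En g F φ q i ≤ 1 := by
        have h3 : En g F φ q i ≤ ‖F 0‖ ^ 2 := h.norm_anti (Nat.zero_le _)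
        have := norm_nonneg (F 0)
        nlinarith
      have h4 : U i ≤ (q⁻¹) ^ i := by
        simp only [hU]
        rw [inv_pow, div_eq_mul_inv]
        have : 0 ≤ (q ^ i)⁻¹ := by positivity
        nlinarith
      have h5 : (q⁻¹) ^ i ≤ (q⁻¹) ^ K := by
        apply pow_le_pow_right₀ _ hi'
        rw [one_le_inv₀ hq]
        exact hq1.le
      have h6 : Q ^ i ≤ 1 := pow_le_one₀ hQ0.le hQ1.le
      calc Q ^ i * U i ≤ 1 * U i := mul_le_mul_of_nonneg_right h6 (hU0 i)
        _ = U i := one_mul _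
        _ ≤ _ := h4.trans h5
    have h2 := Finset.sum_le_card_nsmul _ _ _ h1
    rw [Finset.card_range, nsmul_eq_mul] at h2
    push_cast at h2
    exact h2
  have h5 : 0 ≤ P.A * (1 - Q) * (q⁻¹) ^ (K + 1) * (Q⁻¹) ^ (K + 1) := by
    have : 0 ≤ 1 - Q := by linarith
    positivity
  exact add_le_add hinit (mul_le_mul_of_nonneg_left hsum h5)

/-- the constant in the bound for the potential -/
noncomputable def Mc (P : Par) (q : ℝ) (K : ℕ) : ℝ :=
  1 + |P.A| + P.A * (1 - q ^ P.β) * (q⁻¹) ^ (K + 1) * ((q ^ P.β)⁻¹) ^ (K + 1) *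
        ((K + 1) * (q⁻¹) ^ K)

/-- The residuals satisfy a power bound. -/
theorem rate' (hg : Riesz g p q') (hp0 : 0 < p) (P : Par) (hA : 0 ≤ P.A)
    {c : ℝ} (hc : 0 ≤ c) (hcp : c < p) (hw : ∀ v, 0 ≤ v → -(c * v ^ 2) ≤ P.w v)
    {q : ℝ} (hq : 0 < q) (hq1 : q < 1) {K : ℕ}
    (hcond : (1 + P.B / p) * (q ^ (P.β - 1) - 1) ≤ P.A * (1 - q ^ P.β) * (q⁻¹) ^ (K + 1) *
      (((q ^ P.β)⁻¹) ^ (K + 1) -
        (1 / q - 1) * ∑ i ∈ Finset.range (K + 1), ((q ^ P.β)⁻¹) ^ i))
    (h : IsRun g F φ)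
    {x : ι → ℝ} (hx1 : Summable (fun i => |x i|)) (hxs : ∑' i, |x i| ≤ 1)
    (hx : HasSum (fun i => x i • g i) (F 0)) (k : ℕ) :
    ‖F k‖ ≤ Mc P q K / (1 - c / p) / q *
      ((k : ℝ) + 1) ^ (-((1 - P.β) / (2 * (1 + P.β)))) := by
  classical
  have hβ := P.hβ
  have hβ1 := P.hβ1
  have h1β := P.h1β
  have hQ1 : q ^ P.β < 1 := Real.rpow_lt_one hq.le hq1 hβ
  have hQ0 : 0 < q ^ P.β := Real.rpow_pos_of_pos hq _
  set d : ℝ := 1 - c / p with hd
  have hd0 : 0 < d := by
    rw [hd, sub_pos, div_lt_one (by positivity)]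
    exact hcp
  have hd1 : d ≤ 1 := by
    rw [hd]
    have : 0 ≤ c / p := by positivity
    linarith
  have hM1 : 1 ≤ Mc P q K := by
    unfold Mc
    have h1 : 0 ≤ 1 - q ^ P.β := by linarith
    have h2 : 0 ≤ P.A * (1 - q ^ P.β) * (q⁻¹) ^ (K + 1) * ((q ^ P.β)⁻¹) ^ (K + 1) *
        ((K + 1) * (q⁻¹) ^ K) := by positivity
    have h3 := abs_nonneg P.A
    linarith
  set C0 : ℝ := Mc P q K / d with hC0d
  have hC01 : 1 ≤ C0 := by
    rw [hC0d, le_div_iff₀ hd0]
    linarith
  set C : ℝ := C0 / q with hC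
  have hCC0 : C0 ≤ C := by
    rw [hC, le_div_iff₀ hq]
    nlinarith
  have hC1 : 1 ≤ C := hC01.trans hCC0
  have hCpos : 0 < C := by linarith
  -- initial norm
  have hF0 : ‖F 0‖ ≤ 1 := by
    rw [← hx.tsum_eq]
    refine (norm_tsum_le_tsum_norm ?_).trans ?_
    · simpa [norm_smul, h.unit] using hx1
    · simpa [norm_smul, h.unit] using hxs
  have hR0 : R g F φ 0 ≤ 1 := by
    unfold R
    refine (abs_real_inner_le_norm _ _).trans ?_
    rw [h.unit, mul_one]
    exact hF0
  -- positivity of the maximal inner product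
  have hpos : ∀ k, F k ≠ 0 → 0 < R g F φ k := by
    intro k hF
    by_contra hcon
    have h0 : |⟪F k, g (φ k)⟫| = 0 := le_antisymm (not_lt.1 hcon) (abs_nonneg _)
    have h1 : ∀ i, ⟪F k, g i⟫ = 0 := by
      intro i
      have := h.maxi k i
      rw [h0] at this
      exact abs_eq_zero.1 (le_antisymm this (abs_nonneg _))
    have h2 := hasSum_energy (h.cf_spec hx1 hx k).2
    simp only [h1, mul_zero] at h2
    have h3 := h2.unique hasSum_zero
    exact hF (norm_eq_zero.1 (pow_eq_zero_iff (two_ne_zero) |>.1 h3))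
  -- the bound at the scales
  have hscale : ∀ j : ℕ, ‖F (tm g F φ (q ^ j))‖ ^ 2 ≤ C0 * (q ^ j) ^ (1 - P.β) := by
    intro j
    have hD : 0 < q ^ j := by positivity
    have h0 := h.scales hg hp0 P hA hq hq1 hcond hx1 hxs hx j
    obtain ⟨hxs', hxf'⟩ := h.cf_spec hx1 hx (tm g F φ (q ^ j))
    have h1 := le_Gam hg hp0 P hc hw hD hxs' hxf'
    have h2 : d * ((q ^ j) ^ (P.β - 1) * ‖F (tm g F φ (q ^ j))‖ ^ 2) ≤ Mc P q K := h1.trans h0
    have h5 : (q ^ j) ^ (1 - P.β) * (q ^ j) ^ (P.β - 1) = 1 := by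
      rw [← Real.rpow_add hD]
      simp
    have h6 : 0 < (q ^ j) ^ (1 - P.β) := Real.rpow_pos_of_pos hD _
    rw [hC0d, div_mul_eq_mul_div, le_div_iff₀ hd0]
    have h4 := mul_le_mul_of_nonneg_right h2 h6.le
    have h7 : d * ((q ^ j) ^ (P.β - 1) * ‖F (tm g F φ (q ^ j))‖ ^ 2) * (q ^ j) ^ (1 - P.β) =
        d * ‖F (tm g F φ (q ^ j))‖ ^ 2 * ((q ^ j) ^ (1 - P.β) * (q ^ j) ^ (P.β - 1)) := by ring
    rw [h7, h5] at h4
    linarith
  -- the basic inequality
  have hbasic : ∀ k, ‖F k‖ ^ 2 ≤ C * R g F φ k ^ (1 - P.β) := by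
    intro k
    by_cases hF : F k = 0
    · rw [hF]
      have h1 : 0 ≤ R g F φ k ^ (1 - P.β) := Real.rpow_nonneg (R_nonneg k) _
      have h2 := mul_nonneg hCpos.le h1
      simpa using h2
    · have hne : ∀ l, l ≤ k → F l ≠ 0 := by
        intro l hl h0
        apply hF
        have h1 : ‖F k‖ ^ 2 ≤ ‖F l‖ ^ 2 := h.norm_anti hl
        rw [h0, norm_zero] at h1
        have h2 : ‖F k‖ ^ 2 = 0 := le_antisymm (by simpa using h1) (sq_nonneg _)
        exact norm_eq_zero.1 (pow_eq_zero_iff (two_ne_zero) |>.1 h2)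
      have hex : ∃ J : ℕ, k < tm g F φ (q ^ (J + 1)) := by
        -- a scale below all the inner products up to time `k`
        have h1 : ∃ ρ : ℝ, 0 < ρ ∧ ∀ l, l ≤ k → ρ ≤ R g F φ l := by
          obtain ⟨l0, hl0, hmin⟩ := Finset.exists_min_image (Finset.range (k + 1))
            (fun l => R g F φ l) ⟨0, by simp⟩
          refine ⟨R g F φ l0, hpos l0 (hne l0 (by
            have := Finset.mem_range.1 hl0
            omega)), fun l hl => hmin l (by
            apply Finset.mem_range.2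
            omega)⟩
        obtain ⟨ρ, hρ, hmin⟩ := h1
        obtain ⟨J, hJ⟩ := exists_pow_lt_of_lt_one hρ hq1
        refine ⟨J, ?_⟩
        by_contra hcon
        have h2 := h.tm_spec (s := q ^ (J + 1)) (by positivity)
        have h3 := hmin _ (not_lt.1 hcon)
        have h4 : q ^ (J + 1) ≤ q ^ J := pow_le_pow_of_le_one hq.le hq1.le (Nat.le_succ J)
        linarith
      have hle : tm g F φ (q ^ (Nat.find hex)) ≤ k := by
        rcases Nat.eq_zero_or_pos (Nat.find hex) with h0 | h0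
        · rw [h0, tm_zero (by simpa using hR0)]
          exact Nat.zero_le _
        · have h1 := Nat.find_min hex (m := Nat.find hex - 1) (by omega)
          have e : Nat.find hex - 1 + 1 = Nat.find hex := by omega
          rw [e] at h1
          exact not_lt.1 h1
      have hlt := Nat.find_spec hex
      set J := Nat.find hex with hJ
      have h1 : ‖F k‖ ^ 2 ≤ ‖F (tm g F φ (q ^ J))‖ ^ 2 := h.norm_anti hle
      have h2 := hscale J
      have h3 : q ^ (J + 1) < R g F φ k := lt_tm hlt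
      have h4 : q ^ J ≤ R g F φ k / q := by
        rw [le_div_iff₀ hq, ← pow_succ]
        exact h3.le
      have h5 : (q ^ J) ^ (1 - P.β) ≤ (R g F φ k / q) ^ (1 - P.β) :=
        Real.rpow_le_rpow (by positivity) h4 h1β.le
      have h6 : (R g F φ k / q) ^ (1 - P.β) ≤ R g F φ k ^ (1 - P.β) / q := by
        rw [Real.div_rpow (R_nonneg k) hq.le]
        apply div_le_div_of_nonneg_left (Real.rpow_nonneg (R_nonneg k) _) hq
        have := Real.rpow_le_rpow_of_exponent_ge hq hq1.le (by linarith : 1 - P.β ≤ 1)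
        rwa [Real.rpow_one] at this
      calc ‖F k‖ ^ 2 ≤ C0 * (q ^ J) ^ (1 - P.β) := h1.trans h2
        _ ≤ C0 * (R g F φ k ^ (1 - P.β) / q) :=
            mul_le_mul_of_nonneg_left (h5.trans h6) (by linarith)
        _ = C * R g F φ k ^ (1 - P.β) := by rw [hC]; ring
  set s : ℝ := (1 + P.β) / (1 - P.β) with hs
  have hs1 : 1 ≤ s := by
    rw [hs, le_div_iff₀ h1β]
    linarith
  have hseq := seq_pow (a := fun k => ‖F k‖ ^ 2) (C := C) (s := s) hC1 hs1
    (fun k => sq_nonneg _) (by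
      have := norm_nonneg (F 0)
      nlinarith) (by
      intro k
      rw [h.norm_succ k]
      have h1 := hbasic k
      have h2 : ‖F k‖ ^ 2 / C ≤ R g F φ k ^ (1 - P.β) := by
        rw [div_le_iff₀ hCpos]
        linarith
      have h3 := Real.rpow_le_rpow (by positivity) h2 (by positivity : 0 ≤ 1 + s)
      rw [← Real.rpow_mul (R_nonneg k)] at h3
      have e : (1 - P.β) * (1 + s) = 2 := by
        rw [hs]
        field_simp
        ring
      rw [e, Real.rpow_two] at h3
      linarith) k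
  have hk0 : (0 : ℝ) < (k : ℝ) + 1 := by positivity
  have hfin : ‖F k‖ ^ 2 ≤ (C * ((k : ℝ) + 1) ^ (-((1 - P.β) / (2 * (1 + P.β))))) ^ 2 := by
    refine hseq.trans (le_of_eq ?_)
    rw [mul_pow]
    congr 1
    rw [← Real.rpow_natCast (((k : ℝ) + 1) ^ (-((1 - P.β) / (2 * (1 + P.β))))) 2,
      ← Real.rpow_mul hk0.le]
    congr 1
    rw [hs]
    push_cast
    field_simp
  exact le_of_sq_le_sq hfin (by positivity)

end Pool.Agent.Lib.MP_3cbb73_an.Upper
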