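import Mathlib

set_option autoImplicit false

/-! A concave potential profile with a power weight. -/

namespace Pool.Agent.Lib.MP_3cbb73_an.Upper

open Real Set

/-- Parameters of the profile. -/
structure Par where
  β : ℝ
  V : ℝ
  lam : ℝ
  mu : ℝ
  hβ : 0 < β
  hβ1 : β < 1
  hV : 1 ≤ V
  hmu : 0 < mu
  hlm : lam + β = 2 * mu * V
  hone : lam / β + mu / (1 - β) - 2 * mu * V ^ (1 - β) / (β * (1 - β ^ 2)) ≤ 1

/-- Tangent line inequality for a concave power. -/
lemma rpow_le_tangent {β u v : ℝ} (hβ : 0 ≤ β) (hβ1 : β ≤ 1) (hu : 0 ≤ u) (hv : 0 < v) :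
    u ^ β ≤ v ^ β + β * v ^ (β - 1) * (u - v) := by
  have h1 := rpow_one_add_le_one_add_mul_self (s := u / v - 1)
    (by have : 0 ≤ u / v := by positivity
        linarith) hβ hβ1
  rw [show 1 + (u / v - 1) = u / v by ring, Real.div_rpow hu hv.le] at h1
  have hvβ : 0 < v ^ β := Real.rpow_pos_of_pos hv β
  rw [div_le_iff₀ hvβ] at h1
  have h2 : v ^ (β - 1) = v ^ β / v := by rw [Real.rpow_sub hv, Real.rpow_one]
  rw [h2]
  refine h1.trans (le_of_eq ?_)
  field_simp

namespace Par

variable (P : Par)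

noncomputable def A : ℝ := P.lam / P.β
noncomputable def B : ℝ := P.mu / (1 - P.β)
noncomputable def C : ℝ := 2 * P.mu * P.V ^ (1 - P.β) / (P.β * (1 - P.β ^ 2))
noncomputable def K : ℝ := P.mu * P.V ^ 2 / (1 + P.β)
noncomputable def w1 (v : ℝ) : ℝ := P.A * v + P.B * v ^ 2 - P.C * v ^ (1 + P.β)
noncomputable def g1 (v : ℝ) : ℝ := P.A + 2 * P.B * v - P.C * ((1 + P.β) * v ^ P.β)
noncomputable def w (v : ℝ) : ℝ := if v ≤ P.V then P.w1 v else P.K - v
noncomputable def G (v : ℝ) : ℝ := if v ≤ P.V then P.g1 v else -1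

lemma Vpos : 0 < P.V := lt_of_lt_of_le one_pos P.hV

lemma h1β : 0 < 1 - P.β := by have := P.hβ1; linarith

lemma h1β2 : 0 < 1 - P.β ^ 2 := by have := P.hβ1; have := P.hβ; nlinarith

lemma Cpos : 0 < P.C := by
  have := P.hβ
  have := P.hmu
  have := P.h1β2
  have := P.Vpos
  unfold C
  positivity

lemma Bpos : 0 < P.B := div_pos P.hmu P.h1β

lemma Kpos : 0 < P.K := by
  have := P.hβ
  have := P.hmu
  have := P.Vpos
  unfold K
  positivity

/-- `C V^β` -/
lemma C_Vβ : P.C * P.V ^ P.β = 2 * P.mu * P.V / (P.β * (1 - P.β ^ 2)) := by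
  unfold C
  have h : P.V ^ (1 - P.β) * P.V ^ P.β = P.V := by
    rw [← Real.rpow_add P.Vpos]
    simp
  calc 2 * P.mu * P.V ^ (1 - P.β) / (P.β * (1 - P.β ^ 2)) * P.V ^ P.β
      = 2 * P.mu * (P.V ^ (1 - P.β) * P.V ^ P.β) / (P.β * (1 - P.β ^ 2)) := by ring
    _ = _ := by rw [h]

/-- `C V^(β-1)` -/
lemma C_Vβ1 : P.C * P.V ^ (P.β - 1) = 2 * P.mu / (P.β * (1 - P.β ^ 2)) := by
  have hV := P.Vpos
  have h := P.C_Vβ
  rw [Real.rpow_sub hV, Real.rpow_one, ← mul_div_assoc, h]
  field_simp

lemma C_V1β : P.C * P.V ^ (1 + P.β) = 2 * P.mu * P.V ^ 2 / (P.β * (1 - P.β ^ 2)) := by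
  have hV := P.Vpos
  have h := P.C_Vβ
  rw [Real.rpow_add hV, Real.rpow_one]
  calc P.C * (P.V * P.V ^ P.β) = P.V * (P.C * P.V ^ P.β) := by ring
    _ = _ := by rw [h]; ring

lemma w1_V : P.w1 P.V = P.K - P.V := by
  unfold w1 A B K
  rw [P.C_V1β]
  have hβ := P.hβ.ne'
  have h1 := P.h1β.ne'
  have h2 : (1 + P.β) ≠ 0 := by have := P.hβ; positivity
  have hl : P.lam = 2 * P.mu * P.V - P.β := by linarith [P.hlm]
  rw [hl, show 1 - P.β ^ 2 = (1 - P.β) * (1 + P.β) by ring]
  field_simp
  ring

lemma g1_V : P.g1 P.V = -1 := by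
  have h := P.C_Vβ
  unfold g1 A B
  have hβ := P.hβ.ne'
  have h1 := P.h1β.ne'
  have h2 : (1 + P.β) ≠ 0 := by have := P.hβ; positivity
  have hl : P.lam = 2 * P.mu * P.V - P.β := by linarith [P.hlm]
  have h3 : P.C * ((1 + P.β) * P.V ^ P.β) = (1 + P.β) * (P.C * P.V ^ P.β) := by ring
  rw [h3, h, hl, show 1 - P.β ^ 2 = (1 - P.β) * (1 + P.β) by ring]
  field_simp
  ring

lemma g1_anti {u v : ℝ} (hu : 0 ≤ u) (huv : u ≤ v) (hv : v ≤ P.V) : P.g1 v ≤ P.g1 u := by
  rcases huv.eq_or_lt with h | h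
  · rw [h]
  have hv0 : 0 < v := lt_of_le_of_lt hu h
  have h1 := rpow_le_tangent P.hβ.le P.hβ1.le hu hv0
  have h2 : P.V ^ (P.β - 1) ≤ v ^ (P.β - 1) :=
    Real.rpow_le_rpow_of_nonpos hv0 hv (by have := P.hβ1; linarith)
  have hC := P.Cpos
  have hβ := P.hβ
  have h3 : P.β * P.V ^ (P.β - 1) * (v - u) ≤ v ^ P.β - u ^ P.β := by
    have : P.β * P.V ^ (P.β - 1) * (v - u) ≤ P.β * v ^ (P.β - 1) * (v - u) := by
      apply mul_le_mul_of_nonneg_right _ (by linarith)
      exact mul_le_mul_of_nonneg_left h2 hβ.le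
    linarith
  have h4 : P.C * ((1 + P.β) * (P.β * P.V ^ (P.β - 1) * (v - u))) = 2 * P.B * (v - u) := by
    calc P.C * ((1 + P.β) * (P.β * P.V ^ (P.β - 1) * (v - u)))
        = (P.C * P.V ^ (P.β - 1)) * ((1 + P.β) * P.β * (v - u)) := by ring
      _ = _ := by
        rw [P.C_Vβ1]
        unfold B
        have h1 := P.h1β.ne'
        have h2 : (1 + P.β) ≠ 0 := by positivity
        rw [show 1 - P.β ^ 2 = (1 - P.β) * (1 + P.β) by ring]
        field_simp
  have h5 : P.C * ((1 + P.β) * (P.β * P.V ^ (P.β - 1) * (v - u))) ≤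
      P.C * ((1 + P.β) * (v ^ P.β - u ^ P.β)) := by
    apply mul_le_mul_of_nonneg_left _ hC.le
    exact mul_le_mul_of_nonneg_left h3 (by positivity)
  unfold g1
  nlinarith

lemma g1_ge {v : ℝ} (hv : 0 ≤ v) (hvV : v ≤ P.V) : -1 ≤ P.g1 v := by
  rw [← P.g1_V]
  exact P.g1_anti hv hvV le_rfl

lemma G_anti : AntitoneOn P.G (Ici 0) := by
  intro u hu v hv huv
  unfold G
  by_cases h2 : v ≤ P.V
  · rw [if_pos h2, if_pos (huv.trans h2)]
    exact P.g1_anti hu huv h2
  · rw [if_neg h2]
    split_ifs with h3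
    · exact P.g1_ge hu h3
    · exact le_rfl

lemma G_ge {v : ℝ} (hv : 0 ≤ v) : -1 ≤ P.G v := by
  unfold G
  split_ifs with h
  · exact P.g1_ge hv h
  · exact le_rfl

lemma w_of_le {v : ℝ} (hv : v ≤ P.V) : P.w v = P.w1 v := if_pos hv

lemma w_of_ge {v : ℝ} (hv : P.V ≤ v) : P.w v = P.K - v := by
  rcases hv.eq_or_lt with h | h
  · rw [← h, P.w_of_le le_rfl, P.w1_V]
  · exact if_neg (not_le.2 h)

lemma hasDeriv_w1 (v : ℝ) : HasDerivAt P.w1 (P.g1 v) v := by
  have h1 : HasDerivAt (fun v : ℝ => v ^ (1 + P.β)) ((1 + P.β) * v ^ (1 + P.β - 1)) v :=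
    Real.hasDerivAt_rpow_const (Or.inr (by have := P.hβ; linarith))
  have h2 := (((hasDerivAt_id v).const_mul P.A).add
    (((hasDerivAt_id v).pow 2).const_mul P.B)).sub (h1.const_mul P.C)
  refine h2.congr_deriv ?_
  unfold g1
  rw [show 1 + P.β - 1 = P.β by ring]
  simp only [id, Nat.cast_ofNat, mul_one, Nat.add_one_sub_one, pow_one]
  ring

lemma hasDeriv_w {v : ℝ} : HasDerivAt P.w (P.G v) v := by
  rcases lt_trichotomy v P.V with h | h | h
  · have h1 : P.w =ᶠ[nhds v] P.w1 := by
      filter_upwards [eventually_lt_nhds h] with x hx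
      exact P.w_of_le hx.le
    have h2 : P.G v = P.g1 v := if_pos h.le
    rw [h2]
    exact (P.hasDeriv_w1 v).congr_of_eventuallyEq h1
  · subst h
    have h2 : P.G P.V = -1 := by
      unfold G
      rw [if_pos le_rfl, P.g1_V]
    rw [h2]
    have hl : HasDerivWithinAt P.w (-1) (Iic P.V) P.V := by
      have h3 : HasDerivWithinAt P.w1 (-1) (Iic P.V) P.V := by
        have := (P.hasDeriv_w1 P.V).hasDerivWithinAt (s := Iic P.V)
        rwa [P.g1_V] at this
      exact h3.congr (fun x hx => P.w_of_le hx) (P.w_of_le le_rfl)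
    have hr : HasDerivWithinAt P.w (-1) (Ici P.V) P.V := by
      have h3 : HasDerivWithinAt (fun x => P.K - x) (-1) (Ici P.V) P.V := by
        have := ((hasDerivAt_id P.V).const_sub P.K).hasDerivWithinAt (s := Ici P.V)
        simpa using this
      exact h3.congr (fun x hx => P.w_of_ge hx) (P.w_of_ge le_rfl)
    have := hl.union hr
    rwa [Iic_union_Ici, hasDerivWithinAt_univ] at this
  · have h1 : P.w =ᶠ[nhds v] (fun x => P.K - x) := by
      filter_upwards [eventually_gt_nhds h] with x hx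
      exact P.w_of_ge (le_of_lt hx)
    have h2 : P.G v = -1 := if_neg (not_le.2 h)
    rw [h2]
    have h3 : HasDerivAt (fun x => P.K - x) (-1) v := by
      have := (hasDerivAt_id v).const_sub P.K
      simpa using this
    exact h3.congr_of_eventuallyEq h1

lemma continuous_w : Continuous P.w :=
  continuous_iff_continuousAt.2 (fun _ => P.hasDeriv_w.continuousAt)

lemma w_zero : P.w 0 = 0 := by
  rw [P.w_of_le P.Vpos.le]
  unfold w1
  rw [Real.zero_rpow (by have := P.hβ; positivity)]
  ring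

lemma w_one : P.w 1 ≤ 1 := by
  rw [P.w_of_le P.hV]
  unfold w1 A B C
  rw [Real.one_rpow]
  have := P.hone
  linarith

lemma concave : ConcaveOn ℝ (Ici 0) P.w := by
  apply AntitoneOn.concaveOn_of_deriv (convex_Ici 0) P.continuous_w.continuousOn
  · intro x _
    exact P.hasDeriv_w.differentiableAt.differentiableWithinAt
  · intro x hx y hy hxy
    rw [P.hasDeriv_w.deriv, P.hasDeriv_w.deriv]
    exact P.G_anti (interior_subset hx) (interior_subset hy) hxy

lemma w_slope {u v : ℝ} (hu : 0 ≤ u) (huv : u ≤ v) : P.w u - P.w v ≤ v - u := by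
  have h : MonotoneOn (fun x => P.w x + x) (Ici 0) := by
    apply monotoneOn_of_deriv_nonneg (convex_Ici 0)
    · exact (P.continuous_w.add continuous_id).continuousOn
    · intro x _
      exact (P.hasDeriv_w.add (hasDerivAt_id x)).differentiableAt.differentiableWithinAt
    · intro x hx
      have h1 : HasDerivAt (fun x => P.w x + x) (P.G x + 1) x := P.hasDeriv_w.add (hasDerivAt_id x)
      rw [h1.deriv]
      have := P.G_ge (v := x) (interior_subset hx)
      linarith
  have := h hu (hu.trans huv) huv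
  simp only at this
  linarith

lemma w_ge_neg {v : ℝ} (hv : 0 ≤ v) : -v ≤ P.w v := by
  have := P.w_slope le_rfl hv
  rw [P.w_zero] at this
  linarith

/-- scaling towards zero -/
lemma w_scale {v θ : ℝ} (hv : 0 ≤ v) (h0 : 0 ≤ θ) (h1 : θ ≤ 1) : θ * P.w v ≤ P.w (θ * v) := by
  have h := P.concave.2 (x := v) (y := 0) hv (by simp) h0 (by linarith : 0 ≤ 1 - θ) (by ring)
  simp only [smul_eq_mul, P.w_zero, mul_zero, add_zero] at h
  exact h

lemma w_subadd {u v : ℝ} (hu : 0 ≤ u) (hv : 0 ≤ v) : P.w (u + v) ≤ P.w u + P.w v := by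
  rcases (add_nonneg hu hv).eq_or_lt with h | h
  · have hu0 : u = 0 := by linarith
    have hv0 : v = 0 := by linarith
    rw [hu0, hv0, add_zero, P.w_zero, add_zero]
  · have h1 := P.w_scale (v := u + v) (θ := u / (u + v)) h.le (by positivity)
      (by rw [div_le_one h]; linarith)
    have h2 := P.w_scale (v := u + v) (θ := v / (u + v)) h.le (by positivity)
      (by rw [div_le_one h]; linarith)
    rw [div_mul_cancel₀ _ h.ne'] at h1 h2
    have h3 : P.w (u + v) = u / (u + v) * P.w (u + v) + v / (u + v) * P.w (u + v) := by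
      field_simp
    linarith

lemma w_le_self {v : ℝ} (hv : 1 ≤ v) : P.w v ≤ v := by
  have h0 : 0 < v := by linarith
  have h := P.w_scale (v := v) (θ := 1 / v) h0.le (by positivity)
    (by rw [div_le_one h0]; exact hv)
  rw [one_div_mul_cancel h0.ne', one_div_mul_eq_div] at h
  have h2 := h.trans P.w_one
  rwa [div_le_one h0] at h2

lemma w_step {v t : ℝ} (ht : 1 ≤ |t|) : P.w |v - t| - P.w |v| ≤ t ^ 2 := by
  have ht2 : |t| ≤ t ^ 2 := by rw [← sq_abs t]; nlinarith
  set r := |t| with hr
  set a := |v| with ha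
  have ha0 : 0 ≤ a := abs_nonneg _
  rcases le_total 0 (v * t) with h | h
  · -- same sign: |v - t| = |a - r|
    have e : |v - t| = |a - r| := by
      rcases le_total 0 v with hv | hv
      · rcases le_total 0 t with ht' | ht'
        · rw [ha, hr, abs_of_nonneg hv, abs_of_nonneg ht']
        · have h0 : v * t = 0 := le_antisymm (mul_nonpos_of_nonneg_of_nonpos hv ht') h
          rcases mul_eq_zero.1 h0 with h0 | h0
          · rw [ha, hr, h0, abs_zero, zero_sub, zero_sub, abs_neg, abs_neg, abs_abs]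
          · rw [hr, h0, abs_zero] at ht
            linarith
      · rcases le_total 0 t with ht' | ht'
        · have h0 : v * t = 0 := le_antisymm (mul_nonpos_of_nonpos_of_nonneg hv ht') h
          rcases mul_eq_zero.1 h0 with h0 | h0
          · rw [ha, hr, h0, abs_zero, zero_sub, zero_sub, abs_neg, abs_neg, abs_abs]
          · rw [hr, h0, abs_zero] at ht
            linarith
        · rw [ha, hr, abs_of_nonpos hv, abs_of_nonpos ht', ← abs_neg]
          congr 1
          ring
    rw [e]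
    rcases le_total r a with h1 | h1
    · rw [abs_of_nonneg (by linarith)]
      have := P.w_slope (u := a - r) (v := a) (by linarith) (by linarith)
      linarith
    · rw [abs_of_nonpos (by linarith), neg_sub]
      rcases le_total 1 (r - a) with h2 | h2
      · have h3 := P.w_le_self h2
        have h4 := P.w_ge_neg ha0
        linarith
      · -- both a and r - a at most one, or a ≥ r - a
        rcases le_total a 1 with h3 | h3
        · have h4 := P.w_slope (u := r - a) (v := 1) (by linarith) h2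
          have h5 := P.w_scale (v := 1) (θ := a) zero_le_one ha0 h3
          rw [mul_one] at h5
          have h6 := P.w_one
          nlinarith
        · have h4 := P.w_slope (u := r - a) (v := a) (by linarith) (by linarith)
          linarith
  · have e : |v - t| = a + r := by
      rcases le_total 0 v with hv | hv
      · rcases le_total 0 t with ht' | ht'
        · have h0 : v * t = 0 := le_antisymm h (mul_nonneg hv ht')
          rcases mul_eq_zero.1 h0 with h0 | h0
          · rw [ha, hr, h0, abs_zero, zero_sub, abs_neg, zero_add]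
          · rw [hr, h0, abs_zero] at ht
            linarith
        · rw [ha, hr, abs_of_nonneg hv, abs_of_nonpos ht', abs_of_nonneg (by linarith)]
          ring
      · rcases le_total 0 t with ht' | ht'
        · rw [ha, hr, abs_of_nonpos hv, abs_of_nonneg ht', abs_of_nonpos (by linarith)]
          ring
        · have h0 : v * t = 0 := le_antisymm h (mul_nonneg_of_nonpos_of_nonpos hv ht')
          rcases mul_eq_zero.1 h0 with h0 | h0
          · rw [ha, hr, h0, abs_zero, zero_sub, abs_neg, zero_add]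
          · rw [hr, h0, abs_zero] at ht
            linarith
    rw [e]
    have h1 := P.w_subadd ha0 (by linarith : 0 ≤ r)
    have h2 := P.w_le_self ht
    linarith

lemma w_le {v : ℝ} (hv : 0 ≤ v) : P.w v ≤ P.A * v := by
  have key : ∀ v, 0 ≤ v → v ≤ P.V → P.w v ≤ P.A * v := by
    intro v hv hvV
    rw [P.w_of_le hvV]
    unfold w1
    rcases hv.eq_or_lt with h | h
    · rw [← h, Real.zero_rpow (by have := P.hβ; positivity)]
      simp
    · have h1 : v ^ (1 + P.β) = v ^ 2 * v ^ (P.β - 1) := by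
        rw [← Real.rpow_natCast v 2, ← Real.rpow_add h]
        congr 1
        push_cast
        ring
      have h2 : P.V ^ (P.β - 1) ≤ v ^ (P.β - 1) :=
        Real.rpow_le_rpow_of_nonpos h hvV (by have := P.hβ1; linarith)
      have h3 : P.B ≤ P.C * v ^ (P.β - 1) := by
        refine le_trans ?_ (mul_le_mul_of_nonneg_left h2 P.Cpos.le)
        rw [P.C_Vβ1]
        unfold B
        have hβ := P.hβ
        have hβ1 := P.hβ1
        have h1 := P.h1β
        rw [div_le_div_iff₀ h1 (by have := P.h1β2; positivity),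
          show 1 - P.β ^ 2 = (1 - P.β) * (1 + P.β) by ring]
        have hmu := P.hmu
        have : P.β * (1 + P.β) ≤ 2 := by nlinarith
        have h5 : 0 ≤ P.mu * (1 - P.β) := by positivity
        nlinarith
      rw [h1]
      have h4 : 0 ≤ v ^ 2 := sq_nonneg _
      nlinarith [mul_le_mul_of_nonneg_left h3 h4]
  rcases le_total v P.V with h | h
  · exact key v hv h
  · have h1 := key P.V P.Vpos.le le_rfl
    rw [P.w_of_ge le_rfl] at h1
    rw [P.w_of_ge h]
    have hK := P.Kpos
    have hV := P.Vpos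
    -- `K - V ≤ A V`; so `K ≤ (A+1) V ≤ (A+1) v`
    have hA1 : 0 ≤ P.A + 1 := by
      unfold A
      have hl : P.lam = 2 * P.mu * P.V - P.β := by linarith [P.hlm]
      have hβ := P.hβ
      have hmu := P.hmu
      have : P.lam / P.β + 1 = 2 * P.mu * P.V / P.β := by
        rw [hl]; field_simp; ring
      rw [this]
      positivity
    nlinarith

end Par

end Pool.Agent.Lib.MP_3cbb73_an.Upper
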