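import Pool.Agent.Lib.MP_3cbb73_an.Upper.Look

set_option autoImplicit false

/-! The times at which the maximal inner product drops below a scale. -/

namespace Pool.Agent.Lib.MP_3cbb73_an.Upper

open Real Filter Topology
open scoped RealInnerProductSpace

open Pool.Agent.Lib.MP_3cbb73_an (Riesz hasSum_energy seq_bound)

variable {H : Type*} [NormedAddCommGroup H] [InnerProductSpace ℝ H] {ι : Type*}

/-- A realization of the greedy algorithm over the family `g`. -/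
structure IsRun (g : ι → H) (F : ℕ → H) (φ : ℕ → ι) : Prop where
  unit : ∀ i, ‖g i‖ = 1
  step : ∀ k, F (k + 1) = F k - ⟪F k, g (φ k)⟫ • g (φ k)
  maxi : ∀ k i, |⟪F k, g i⟫| ≤ |⟪F k, g (φ k)⟫|

variable {g : ι → H} {F : ℕ → H} {φ : ℕ → ι}

/-- the maximal inner product -/
noncomputable def R (g : ι → H) (F : ℕ → H) (φ : ℕ → ι) (n : ℕ) : ℝ := |⟪F n, g (φ n)⟫|

/-- the first time at which the maximal inner product is at most `s` -/
noncomputable def tm (g : ι → H) (F : ℕ → H) (φ : ℕ → ι) (s : ℝ) : ℕ :=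
  sInf {n | R g F φ n ≤ s}

lemma R_nonneg (n : ℕ) : 0 ≤ R g F φ n := abs_nonneg _

lemma IsRun.norm_succ (h : IsRun g F φ) (n : ℕ) : ‖F (n + 1)‖ ^ 2 = ‖F n‖ ^ 2 - R g F φ n ^ 2 := by
  rw [h.step n, norm_sub_sq_real, real_inner_smul_right, norm_smul, h.unit,
    Real.norm_eq_abs, mul_one, sq_abs, R, sq_abs]
  ring

lemma IsRun.norm_anti (h : IsRun g F φ) : Antitone (fun n => ‖F n‖ ^ 2) := by
  apply antitone_nat_of_succ_le
  intro n
  rw [h.norm_succ n]
  have := sq_nonneg (R g F φ n)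
  linarith

lemma IsRun.exists_small (h : IsRun g F φ) {s : ℝ} (hs : 0 < s) : ∃ n, R g F φ n ≤ s := by
  by_contra hcon
  push Not at hcon
  have h1 : ∀ n : ℕ, ‖F n‖ ^ 2 ≤ ‖F 0‖ ^ 2 - n * s ^ 2 := by
    intro n
    induction n with
    | zero => simp
    | succ n ih =>
      rw [h.norm_succ n]
      have := pow_le_pow_left₀ hs.le (hcon n).le 2
      push_cast
      linarith
  obtain ⟨n, hn⟩ := exists_nat_gt (‖F 0‖ ^ 2 / s ^ 2)
  rw [div_lt_iff₀ (by positivity)] at hn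
  have h2 := h1 n
  have h3 := sq_nonneg ‖F n‖
  linarith

lemma IsRun.tm_spec (h : IsRun g F φ) {s : ℝ} (hs : 0 < s) : R g F φ (tm g F φ s) ≤ s :=
  Nat.sInf_mem (s := {n | R g F φ n ≤ s}) (h.exists_small hs)

lemma lt_tm {s : ℝ} {l : ℕ} (hl : l < tm g F φ s) : s < R g F φ l := by
  have := Nat.notMem_of_lt_sInf hl
  simpa using this

lemma IsRun.tm_anti (h : IsRun g F φ) {s s' : ℝ} (hs : 0 < s') (hss : s' ≤ s) :
    tm g F φ s ≤ tm g F φ s' :=
  Nat.sInf_le ((h.tm_spec hs).trans hss)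

lemma tm_zero {s : ℝ} (h0 : R g F φ 0 ≤ s) : tm g F φ s = 0 :=
  Nat.le_zero.1 (Nat.sInf_le h0)

lemma IsRun.path (h : IsRun g F φ) {n m : ℕ} (hnm : n ≤ m) :
    F m = F n - ∑ l ∈ Finset.Ico n m, ⟪F l, g (φ l)⟫ • g (φ l) := by
  induction m, hnm using Nat.le_induction with
  | base => simp
  | succ m hm ih =>
    rw [Finset.sum_Ico_succ_top hm, h.step m]
    nth_rewrite 1 [ih]
    abel

/-- comparison of two residuals -/
lemma IsRun.cross (h : IsRun g F φ) {n m : ℕ} (hnm : n ≤ m) {x : ι → ℝ}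
    (hx1 : Summable (fun i => |x i|)) (hx : HasSum (fun i => x i • g i) (F n)) :
    ‖F n‖ ^ 2 ≤ R g F φ m * ∑' i, |x i| + R g F φ n * ∑ l ∈ Finset.Ico n m, R g F φ l := by
  have h1 : ⟪F m, F n⟫ ≤ R g F φ m * ∑' i, |x i| := by
    have h2 : HasSum (fun i => x i * ⟪F m, g i⟫) ⟪F m, F n⟫ := by
      have h3 := (innerSL ℝ (F m)).hasSum hx
      simpa only [innerSL_apply_apply, real_inner_smul_right] using h3
    rw [← h2.tsum_eq, ← tsum_mul_left]
    apply Summable.tsum_le_tsum _ h2.summable (hx1.mul_left _)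
    intro i
    calc x i * ⟪F m, g i⟫ ≤ |x i * ⟪F m, g i⟫| := le_abs_self _
      _ = |x i| * |⟪F m, g i⟫| := abs_mul _ _
      _ ≤ |x i| * R g F φ m := by gcongr; exact h.maxi m i
      _ = R g F φ m * |x i| := mul_comm _ _
  have h2 : ‖F n‖ ^ 2 - R g F φ n * ∑ l ∈ Finset.Ico n m, R g F φ l ≤ ⟪F m, F n⟫ := by
    rw [h.path hnm, inner_sub_left, real_inner_self_eq_norm_sq, sum_inner, Finset.mul_sum]
    apply sub_le_sub_left
    apply Finset.sum_le_sum
    intro l _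
    rw [real_inner_smul_left]
    calc ⟪F l, g (φ l)⟫ * ⟪g (φ l), F n⟫ ≤ |⟪F l, g (φ l)⟫ * ⟪g (φ l), F n⟫| := le_abs_self _
      _ = R g F φ l * |⟪F n, g (φ l)⟫| := by rw [abs_mul, real_inner_comm (F n) (g (φ l)), R]
      _ ≤ R g F φ l * R g F φ n := by
          apply mul_le_mul_of_nonneg_left (h.maxi n (φ l)) (R_nonneg l)
      _ = R g F φ n * R g F φ l := mul_comm _ _
  linarith

/-- the length of the path while the maximal inner products are at least `s` -/
lemma IsRun.length_le (h : IsRun g F φ) {s : ℝ} (hs : 0 < s) {a b : ℕ} (hab : a ≤ b)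
    (hR : ∀ l, l < b → s ≤ R g F φ l) :
    ∑ l ∈ Finset.Ico a b, R g F φ l ≤ (‖F a‖ ^ 2 - ‖F b‖ ^ 2) / s := by
  induction b, hab using Nat.le_induction with
  | base => simp
  | succ m hm ih =>
    rw [Finset.sum_Ico_succ_top hm, h.norm_succ m]
    have h1 := ih (fun l hl => hR l (by omega))
    have h2 := hR m (by omega)
    have h3 : R g F φ m ≤ R g F φ m ^ 2 / s := by
      rw [le_div_iff₀ hs]
      nlinarith [R_nonneg (g := g) (F := F) (φ := φ) m]
    have h4 : (‖F a‖ ^ 2 - (‖F m‖ ^ 2 - R g F φ m ^ 2)) / s =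
        (‖F a‖ ^ 2 - ‖F m‖ ^ 2) / s + R g F φ m ^ 2 / s := by ring
    rw [h4]
    linarith

/-- the energy at the scale `q^j` -/
noncomputable def En (g : ι → H) (F : ℕ → H) (φ : ℕ → ι) (q : ℝ) (j : ℕ) : ℝ :=
  ‖F (tm g F φ (q ^ j))‖ ^ 2

lemma IsRun.tm_mono (h : IsRun g F φ) {q : ℝ} (hq : 0 < q) (hq1 : q ≤ 1) {j k : ℕ} (hjk : j ≤ k) :
    tm g F φ (q ^ j) ≤ tm g F φ (q ^ k) :=
  h.tm_anti (by positivity) (pow_le_pow_of_le_one hq.le hq1 hjk)

lemma IsRun.block (h : IsRun g F φ) {q : ℝ} (hq : 0 < q) (hq1 : q ≤ 1) (j k : ℕ) :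
    ∑ l ∈ Finset.Ico (tm g F φ (q ^ j)) (tm g F φ (q ^ (j + k))), R g F φ l ≤
      ∑ i ∈ Finset.range k, (En g F φ q (j + i) - En g F φ q (j + i + 1)) / q ^ (j + i + 1) := by
  induction k with
  | zero => simp
  | succ k ih =>
    rw [Finset.sum_range_succ, ← Finset.sum_Ico_consecutive _
      (h.tm_mono hq hq1 (show j ≤ j + k by omega))
      (h.tm_mono hq hq1 (show j + k ≤ j + (k + 1) by omega))]
    have h1 := h.length_le (s := q ^ (j + k + 1)) (by positivity)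
      (h.tm_mono hq hq1 (show j + k ≤ j + k + 1 by omega)) (fun l hl => (lt_tm hl).le)
    unfold En at ih ⊢
    have e : j + (k + 1) = j + k + 1 := by ring
    rw [e]
    linarith

/-- the look-ahead inequality -/
lemma IsRun.look (h : IsRun g F φ) {q : ℝ} (hq : 0 < q) (hq1 : q ≤ 1) (j k : ℕ) {x : ι → ℝ}
    (hx1 : Summable (fun i => |x i|))
    (hx : HasSum (fun i => x i • g i) (F (tm g F φ (q ^ j)))) :
    En g F φ q (j + k) / q ^ (j + k) ≤ q ^ k * (∑' i, |x i|) +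
      (1 / q - 1) * ∑ i ∈ Finset.range k, En g F φ q (j + i) / q ^ (j + i) := by
  have hqj : 0 < q ^ j := by positivity
  have hS0 : 0 ≤ ∑' i, |x i| := tsum_nonneg (fun i => abs_nonneg _)
  have h1 := h.cross (h.tm_mono hq hq1 (show j ≤ j + k by omega)) hx1 hx
  have h2 := h.tm_spec (s := q ^ j) hqj
  have h3 := h.tm_spec (s := q ^ (j + k)) (by positivity)
  have h4 := h.block hq hq1 j k
  have hL0 : 0 ≤ ∑ l ∈ Finset.Ico (tm g F φ (q ^ j)) (tm g F φ (q ^ (j + k))), R g F φ l :=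
    Finset.sum_nonneg (fun l _ => R_nonneg l)
  have h5 : En g F φ q j ≤ q ^ (j + k) * (∑' i, |x i|) + q ^ j *
      ∑ i ∈ Finset.range k, (En g F φ q (j + i) - En g F φ q (j + i + 1)) / q ^ (j + i + 1) := by
    refine h1.trans (add_le_add (mul_le_mul_of_nonneg_right h3 hS0) ?_)
    exact (mul_le_mul_of_nonneg_right h2 hL0).trans (mul_le_mul_of_nonneg_left h4 hqj.le)
  set U : ℕ → ℝ := fun i => En g F φ q i / q ^ i with hU
  have e1 : ∀ i, (En g F φ q (j + i) - En g F φ q (j + i + 1)) / q ^ (j + i + 1) =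
      (1 / q - 1) * U (j + i) + (U (j + i) - U (j + i + 1)) := by
    intro i
    simp only [hU]
    rw [pow_succ q (j + i)]
    field_simp
    ring
  have e2 : ∑ i ∈ Finset.range k, (En g F φ q (j + i) - En g F φ q (j + i + 1)) /
      q ^ (j + i + 1) = (1 / q - 1) * (∑ i ∈ Finset.range k, U (j + i)) + (U j - U (j + k)) := by
    rw [Finset.sum_congr rfl (fun i _ => e1 i), Finset.sum_add_distrib, ← Finset.mul_sum]
    congr 1
    have := Finset.sum_range_sub' (fun i => U (j + i)) k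
    simpa [add_assoc] using this
  rw [e2] at h5
  have h6 : En g F φ q j = q ^ j * U j := by
    simp only [hU]
    field_simp
  rw [h6, pow_add] at h5
  have h7 : q ^ j * U j ≤ q ^ j * (q ^ k * (∑' i, |x i|) +
      ((1 / q - 1) * (∑ i ∈ Finset.range k, U (j + i)) + (U j - U (j + k)))) := by
    refine h5.trans (le_of_eq ?_)
    ring
  have h8 := le_of_mul_le_mul_left h7 hqj
  show U (j + k) ≤ _
  linarith

end Pool.Agent.Lib.MP_3cbb73_an.Upper
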